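import Pool.Agent.H578R2.ANN.Rej
import Pool.Agent.H578R2.ANN.PolyI

/-!
# Edge Blocking: the board of an alternating register machine

Vertices are labels `(kind, a, b, c)`:

* `0` (`G`), `1` (`I`), `2`, `3` (the loop);
* `4` the rule `a`, Right to move; `5` Left to move, `c` updates of premise `b` of rule `a` remain;
* `6`, `7`: Left has claimed that the register to be updated is `0`, `1` (Right to move); `8`, `9`
  the same, Left to move; `10`, `11` Right lifts the token; `12`, `13` Left moves it on; `14`, `15`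
  Right sets it; `16`;
* `17`: register `a`, place `b` (`0`, `1` values, `2`, `3` on the way);
* `18`, `19`, `20`: paths (free moves for Left, Right, Left).
-/

set_option autoImplicit false

namespace Pool.Agent.NPC.Q328.EB

open Pool.Agent.NPC Pool.Agent.H820R2.SS
open Pool.Agent.NPC.ANN (Lb rl pm us up ok3)

/-- moves of a register token -/
def yadj (t : Bool) (y y' : ℕ) : Bool :=
  bif t then decide (y = 2) && decide (y' = 3)
  else (decide (y < 2) && decide (y' = 2)) || (decide (y = 3) && decide (y' < 2))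

/-- the place `y` of the region of register `j` -/
abbrev reg (j y : ℕ) : Lb := (17, j, y, 0)

/-- the vertices which are used -/
def ok (M : ARM) (z : Lb) : Bool :=
  (decide (z.1 ≤ 3) && decide (z.2 = (0, 0, 0))) ||
  ((decide (z.1 = 4) && (decide (z.2.1 < M.2.2.length) && decide (z.2.2 = (0, 0)))) ||
  ((decide (z.1 = 5) && ok3 M z.2.1 z.2.2.1 z.2.2.2) ||
  (((decide (6 ≤ z.1) && decide (z.1 ≤ 16)) && (decide (0 < z.2.2.2) &&
    ok3 M z.2.1 z.2.2.1 z.2.2.2)) ||
  ((decide (z.1 = 17) && (decide (z.2.1 < M.1.length) && (decide (z.2.2.1 < 4) &&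
    decide (z.2.2.2 = 0)))) ||
  ((decide (18 ≤ z.1) && decide (z.1 ≤ 20)) && (decide (z.2.1 ≤ M.1.length) &&
    decide (z.2.2 = (0, 0))))))))

/-- the register which is updated -/
abbrev rj (M : ARM) (z : Lb) : ℕ := (up M z.2.1 z.2.2.1 z.2.2.2).1

/-- the new value -/
abbrev rv (M : ARM) (z : Lb) : ℕ := (up M z.2.1 z.2.2.1 z.2.2.2).2.toNat

/-- the edges of Left -/
def ladj (M : ARM) (z z' : Lb) : Bool :=
  (decide (z.1 = 0) && (decide (z'.1 = 2) ||
    (decide (z'.1 = 4) && decide ((rl M z'.2.1).1 = M.2.1)))) ||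
  ((decide (z.1 = 3) && decide (z'.1 = 2)) ||
  ((decide (z.1 = 5) && ((decide (z.2.2.2 = 0) && (decide (z'.1 = 4) &&
    decide ((rl M z'.2.1).1 = (pm M z.2.1 z.2.2.1).1))) ||
    (decide (0 < z.2.2.2) && ((decide (z'.1 = 6) || decide (z'.1 = 7)) && decide (z.2 = z'.2))))) ||
  (((decide (z.1 = 8) || decide (z.1 = 9)) && (decide (z'.1 = z.1 + 2) && decide (z.2 = z'.2))) ||
  (((decide (z.1 = 10) || decide (z.1 = 11)) && ((decide (z'.1 = 12) && decide (z.2 = z'.2)) ||
    (decide (z'.1 = 17) && (decide (z'.2.1 = rj M z) && decide (z'.2.2.1 = 2))))) ||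
  ((decide (z.1 = 13) && (decide (z'.1 = 17) && (decide (z'.2.1 = rj M z) &&
    decide (z'.2.2.1 = 2)))) ||
  ((decide (z.1 = 14) && (decide (z'.1 = 15) && decide (z.2 = z'.2))) ||
  ((decide (z.1 = 15) && ((decide (z'.1 = 16) && decide (z.2 = z'.2)) ||
    (decide (z'.1 = 17) && (decide (z'.2.1 = rj M z) && decide (z'.2.2.1 = rv M z))))) ||
  (((decide (z.1 = 1) || decide (z.1 = 2) || decide (z.1 = 4) || decide (z.1 = 6) ||
    decide (z.1 = 7) || decide (z.1 = 12) || decide (z.1 = 16)) &&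
    (decide (z'.1 = 18) && decide (z'.2.1 = M.1.length))) ||
  ((decide (z.1 = 17) && (decide (z'.1 = 17) && (decide (z'.2.1 = z.2.1) &&
    yadj true z.2.2.1 z'.2.2.1))) ||
  ((decide (z.1 = 18) && (decide (z'.1 = 18) && decide (z.2.1 = z'.2.1 + 1))) ||
  (decide (z.1 = 20) && (decide (z'.1 = 20) && decide (z.2.1 = z'.2.1 + 1)))))))))))))

/-- the edges of Right -/
def radj (M : ARM) (z z' : Lb) : Bool :=
  (decide (z.1 = 1) && decide (z'.1 = 0)) ||
  ((decide (z.1 = 2) && decide (z'.1 = 3)) ||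
  ((decide (z.1 = 4) && ((decide (z'.1 = 5) && (decide (z'.2.1 = z.2.1) &&
    decide (z'.2.2.2 = (us M z'.2.1 z'.2.2.1).length))) ||
    (decide (z'.1 = 17) && (decide (z'.2.2.1 < 2) &&
      decide ((z'.2.1, decide (z'.2.2.1 = 1)) ∈ (rl M z.2.1).2.1))))) ||
  (((decide (z.1 = 6) || decide (z.1 = 7)) && ((decide (z'.1 = z.1 + 2) && decide (z.2 = z'.2)) ||
    (decide (z'.1 = 17) && (decide (z'.2.1 = rj M z) && decide (z.1 = z'.2.2.1 + 6))))) ||
  (((decide (z.1 = 10) || decide (z.1 = 11)) &&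
    (decide (z'.1 = 17) && (decide (z'.2.1 = rj M z) && decide (z.1 = z'.2.2.1 + 10)))) ||
  ((decide (z.1 = 12) && (decide (z'.1 = 13) && decide (z.2 = z'.2))) ||
  ((decide (z.1 = 13) && ((decide (z'.1 = 14) && decide (z.2 = z'.2)) ||
    (decide (z'.1 = 17) && (decide (z'.2.1 = rj M z) && decide (z'.2.2.1 = 3))))) ||
  ((decide (z.1 = 15) && (decide (z'.1 = 17) && (decide (z'.2.1 = rj M z) &&
    decide (z'.2.2.1 = 3)))) ||
  ((decide (z.1 = 16) && (decide (z'.1 = 5) && (decide (z'.2.1 = z.2.1) &&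
    (decide (z'.2.2.1 = z.2.2.1) && decide (z.2.2.2 = z'.2.2.2 + 1))))) ||
  (((decide (z.1 = 0) || decide (z.1 = 3) || decide (z.1 = 5) || decide (z.1 = 8) ||
    decide (z.1 = 9) || decide (z.1 = 14)) &&
    (decide (z'.1 = 19) && decide (z'.2.1 = M.1.length))) ||
  ((decide (z.1 = 17) && (decide (z'.1 = 17) && (decide (z'.2.1 = z.2.1) &&
    yadj false z.2.2.1 z'.2.2.1))) ||
  (decide (z.1 = 19) && (decide (z'.1 = 19) && decide (z.2.1 = z'.2.1 + 1)))))))))))))

/-- the edges of a player -/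
def adj (M : ARM) (t : Bool) (z z' : Lb) : Bool := bif t then ladj M z z' else radj M z z'

/-- Abstract positions: place of the control token, free moves of Left, places of the register
tokens. -/
abbrev St : Type := Lb × (ℕ × (ℕ → ℕ))

/-- Moves between abstract positions (`true` : Left moves). -/
inductive Step (M : ARM) : Bool → St → St → Prop
  | ctl {t : Bool} {c c' : Lb} {n : ℕ} {ρ : ℕ → ℕ} (h : adj M t c c' = true)
      (h2 : ok M c' = true) (hf : ∀ j < M.1.length, c' ≠ reg j (ρ j)) :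
      Step M t (c, n, ρ) (c', n, ρ)
  | res {c : Lb} {n : ℕ} {ρ : ℕ → ℕ} : Step M true (c, n + 1, ρ) (c, n, ρ)
  | rg {t : Bool} {c : Lb} {n : ℕ} {ρ : ℕ → ℕ} {j y : ℕ} (hj : j < M.1.length)
      (h : yadj t (ρ j) y = true) (hc : c ≠ reg j y) :
      Step M t (c, n, ρ) (c, n, Function.update ρ j y)

/-- Left can force a win (`true` : Left is to move). -/
inductive LW (M : ARM) : Bool → St → Prop
  | win {s s' : St} (h : Step M true s s') (h' : LW M false s') : LW M true s
  | all {s : St} (h : ∀ s', Step M false s s' → LW M true s') : LW M false s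

variable {M : ARM}

theorem LW.not_of_aux {A B : St → Prop}
    (h1 : ∀ s, A s → ∀ s', Step M true s s' → ¬ LW M false s' ∨ B s')
    (h2 : ∀ s, B s → ∃ s', Step M false s s' ∧ (¬ LW M true s' ∨ A s')) {t : Bool} {s : St}
    (h : LW M t s) : (t = true → ¬ A s) ∧ (t = false → ¬ B s) := by
  induction h with
  | win h h' ih =>
    refine ⟨fun _ hA => ?_, fun h => absurd h (by decide)⟩
    rcases h1 _ hA _ h with h3 | h3
    · exact h3 h'
    · exact ih.2 rfl h3
  | all h ih =>
    refine ⟨fun h => absurd h (by decide), fun _ hB => ?_⟩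
    obtain ⟨s', h3, h4⟩ := h2 _ hB
    rcases h4 with h4 | h4
    · exact h4 (h s' h3)
    · exact (ih s' h3).1 rfl h4

theorem LW.not_true_of {A B : St → Prop}
    (h1 : ∀ s, A s → ∀ s', Step M true s s' → ¬ LW M false s' ∨ B s')
    (h2 : ∀ s, B s → ∃ s', Step M false s s' ∧ (¬ LW M true s' ∨ A s')) {s : St}
    (hs : A s) : ¬ LW M true s := fun h => (LW.not_of_aux h1 h2 h).1 rfl hs

theorem LW.not_false_of {A B : St → Prop}
    (h1 : ∀ s, A s → ∀ s', Step M true s s' → ¬ LW M false s' ∨ B s')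
    (h2 : ∀ s, B s → ∃ s', Step M false s s' ∧ (¬ LW M true s' ∨ A s')) {s : St}
    (hs : B s) : ¬ LW M false s := fun h => (LW.not_of_aux h1 h2 h).2 rfl hs

end Pool.Agent.NPC.Q328.EB
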