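import Pool.Agent.Q328.EB.Hard

/-!
# Edge Blocking: instances in which no edge can be used by both players
-/

set_option autoImplicit false

namespace Pool.Agent.NPC.Q328.EB

open Pool.Agent.NPC Pool.Agent.H820R2.SS Pool.Agent.NPC.Q328.TH
open Pool.Agent.NPC.ANN (Lb rl pm us up ok3 Forces edg Bd)

/-- No edge can be used by both players. -/
def Disj (A : EBl) : Prop := ∀ e ∈ A.2.1.1, e ∉ A.2.1.2

theorem adj_disj {M : ARM} {u v : Lb} (h : ladj M u v = true) (h' : radj M u v = true) :
    False := by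
  obtain ⟨k, a, b, c⟩ := u
  obtain ⟨k', a', b', c'⟩ := v
  have h0 : (up M a b c).2.toNat < 2 := Bool.toNat_lt _
  simp only [ladj, radj, yadj, rj, rv, cond_true, cond_false, Bool.or_eq_true, Bool.and_eq_true,
    decide_eq_true_eq, Prod.mk.injEq] at h h'
  omega

theorem inst_disj (c : ℕ) (t : Bool) (M : ARM) : Disj (inst c t M) := by
  rintro ⟨x, y⟩ h h'
  obtain ⟨u, v, hu, hv, h1, rfl, rfl⟩ := (mem_edgG enc).1 h
  obtain ⟨u', v', hu', hv', h2, h3, h4⟩ := (mem_edgG enc).1 h'
  have h5 := nuG_inj enc hu' hu h3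
  have h6 := nuG_inj enc hv' hv h4
  subst h5 h6
  exact adj_disj h1 h2

/-- the test -/
def disjB (A : EBl) : Bool := A.2.1.1.all (fun e => !(decide (e ∈ A.2.1.2)))

theorem disjB_iff (A : EBl) : disjB A = true ↔ Disj A := by
  unfold disjB Disj
  simp

theorem poly_disjB : NPC.Poly disjB := by
  unfold disjB
  fun_prop

end Pool.Agent.NPC.Q328.EB
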