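import Pool.Agent.Q328.EB.Pure

/-!
# Edge Blocking: the edges of the board, punishment
-/

set_option autoImplicit false

namespace Pool.Agent.NPC.Q328.EB

open Pool.Agent.NPC Pool.Agent.H820R2.SS Finset
open Pool.Agent.NPC.ANN (Lb rl pm us up ok3)

variable {M : ARM}

section edges

variable {z : Lb} {r i k b : ℕ}

theorem ladj_G (hz : ok M z = true) (h : ladj M (0, 0, 0, 0) z = true) :
    z = (2, 0, 0, 0) ∨ ∃ r, z = (4, r, 0, 0) ∧ (rl M r).1 = M.2.1 := by
  obtain ⟨k', a', b', c'⟩ := z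
  simp [ladj] at h
  rcases h with rfl | ⟨rfl, h⟩
  · simp [ok] at hz
    simp [hz]
  · simp [ok] at hz
    simp [hz, h]

theorem ladj_B (hz : ok M z = true) (h : ladj M (3, 0, 0, 0) z = true) : z = (2, 0, 0, 0) := by
  obtain ⟨k', a', b', c'⟩ := z
  simp [ladj] at h
  subst h
  simp [ok] at hz
  simp [hz]

theorem ladj_C (hz : ok M z = true) (h : ladj M (5, r, i, k) z = true) :
    (k = 0 ∧ ∃ r', z = (4, r', 0, 0) ∧ (rl M r').1 = (pm M r i).1) ∨
    (0 < k ∧ ∃ b < 2, z = (6 + b, r, i, k)) := by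
  obtain ⟨k', a', b', c'⟩ := z
  simp [ladj] at h
  rcases h with ⟨rfl, rfl, h⟩ | ⟨h0, rfl | rfl, rfl, rfl, rfl⟩
  · simp [ok] at hz
    exact Or.inl ⟨rfl, a', by simp [hz], h⟩
  · exact Or.inr ⟨h0, 0, by norm_num, rfl⟩
  · exact Or.inr ⟨h0, 1, by norm_num, rfl⟩

theorem ladj_Q' (hb : b < 2) (h : ladj M (8 + b, r, i, k) z = true) : z = (10 + b, r, i, k) := by
  obtain ⟨k', a', b', c'⟩ := z
  interval_cases b <;> simp [ladj] at h <;> obtain ⟨rfl, rfl, rfl, rfl⟩ := h <;> rfl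

theorem ladj_V1 (hz : ok M z = true) (hb : b < 2) (h : ladj M (10 + b, r, i, k) z = true) :
    z = (12, r, i, k) ∨ z = reg (up M r i k).1 2 := by
  obtain ⟨k', a', b', c'⟩ := z
  interval_cases b <;> simp [ladj, rj] at h <;>
    rcases h with ⟨rfl, rfl, rfl, rfl⟩ | ⟨rfl, rfl, rfl⟩ <;> first
    | (left; rfl)
    | (simp [ok] at hz; simp [hz])

theorem ladj_V2 (hz : ok M z = true) (h : ladj M (13, r, i, k) z = true) :
    z = reg (up M r i k).1 2 := by
  obtain ⟨k', a', b', c'⟩ := z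
  simp [ladj, rj] at h
  obtain ⟨rfl, rfl, rfl⟩ := h
  simp [ok] at hz
  simp [hz]

theorem ladj_O2 (h : ladj M (14, r, i, k) z = true) : z = (15, r, i, k) := by
  obtain ⟨k', a', b', c'⟩ := z
  simp [ladj] at h
  obtain ⟨rfl, rfl, rfl, rfl⟩ := h
  rfl

theorem ladj_V3 (hz : ok M z = true) (h : ladj M (15, r, i, k) z = true) :
    z = (16, r, i, k) ∨ z = reg (up M r i k).1 (up M r i k).2.toNat := by
  obtain ⟨k', a', b', c'⟩ := z
  simp [ladj, rj, rv] at h
  rcases h with ⟨rfl, rfl, rfl, rfl⟩ | ⟨rfl, rfl, rfl⟩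
  · left; rfl
  · right
    simp [ok] at hz
    simp [hz]

theorem radj_I (hz : ok M z = true) (h : radj M (1, 0, 0, 0) z = true) : z = (0, 0, 0, 0) := by
  obtain ⟨k', a', b', c'⟩ := z
  simp [radj] at h
  subst h
  simp [ok] at hz
  simp [hz]

theorem radj_A (hz : ok M z = true) (h : radj M (2, 0, 0, 0) z = true) : z = (3, 0, 0, 0) := by
  obtain ⟨k', a', b', c'⟩ := z
  simp [radj] at h
  subst h
  simp [ok] at hz
  simp [hz]

theorem radj_R (hz : ok M z = true) (h : radj M (4, r, 0, 0) z = true) :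
    (∃ i, z = (5, r, i, (us M r i).length)) ∨
      ∃ (j : ℕ) (b : Bool), z = reg j b.toNat ∧ (j, b) ∈ (rl M r).2.1 := by
  obtain ⟨k', a', b', c'⟩ := z
  simp [radj] at h
  rcases h with ⟨rfl, rfl, rfl⟩ | ⟨rfl, hb, h⟩
  · exact Or.inl ⟨b', rfl⟩
  · right
    refine ⟨a', decide (b' = 1), ?_, h⟩
    simp [ok] at hz
    obtain rfl | rfl : b' = 0 ∨ b' = 1 := by omega
    · simp [hz]
    · simp [hz]

theorem radj_Q (hz : ok M z = true) (hb : b < 2) (h : radj M (6 + b, r, i, k) z = true) :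
    z = (8 + b, r, i, k) ∨ z = reg (up M r i k).1 b := by
  obtain ⟨k', a', b', c'⟩ := z
  interval_cases b <;> simp [radj, rj] at h <;>
    rcases h with ⟨rfl, rfl, rfl, rfl⟩ | ⟨rfl, rfl, rfl⟩ <;> first
    | (left; rfl)
    | (simp [ok] at hz; simp [hz])

theorem radj_V1 (hz : ok M z = true) (hb : b < 2) (h : radj M (10 + b, r, i, k) z = true) :
    z = reg (up M r i k).1 b := by
  obtain ⟨k', a', b', c'⟩ := z
  interval_cases b <;> simp [radj, rj] at h <;> obtain ⟨rfl, rfl, rfl⟩ := h <;>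
    (simp [ok] at hz; simp [hz])

theorem radj_O1 (h : radj M (12, r, i, k) z = true) : z = (13, r, i, k) := by
  obtain ⟨k', a', b', c'⟩ := z
  simp [radj] at h
  obtain ⟨rfl, rfl, rfl, rfl⟩ := h
  rfl

theorem radj_V2 (hz : ok M z = true) (h : radj M (13, r, i, k) z = true) :
    z = (14, r, i, k) ∨ z = reg (up M r i k).1 3 := by
  obtain ⟨k', a', b', c'⟩ := z
  simp [radj, rj] at h
  rcases h with ⟨rfl, rfl, rfl, rfl⟩ | ⟨rfl, rfl, rfl⟩
  · left; rfl
  · right
    simp [ok] at hz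
    simp [hz]

theorem radj_V3 (hz : ok M z = true) (h : radj M (15, r, i, k) z = true) :
    z = reg (up M r i k).1 3 := by
  obtain ⟨k', a', b', c'⟩ := z
  simp [radj, rj] at h
  obtain ⟨rfl, rfl, rfl⟩ := h
  simp [ok] at hz
  simp [hz]

theorem radj_O3 (h : radj M (16, r, i, k) z = true) : ∃ k', k = k' + 1 ∧ z = (5, r, i, k') := by
  obtain ⟨k', a', b', c'⟩ := z
  simp [radj] at h
  obtain ⟨rfl, rfl, rfl, rfl⟩ := h
  exact ⟨c', rfl, rfl⟩

end edges

/-! ### Punishment -/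

/-- the registers hold values -/
def cf (σ : ℕ → Bool) : ℕ → ℕ := fun j => (σ j).toNat

theorem cf_lt2 (σ : ℕ → Bool) (j : ℕ) : cf σ j < 2 := by
  unfold cf
  cases σ j <;> simp

theorem cf_lt (σ : ℕ → Bool) (n : ℕ) : ∀ i < n, cf σ i < 4 := by
  intro i _
  have := cf_lt2 σ i
  omega

theorem SR_cf (n : ℕ) (σ : ℕ → Bool) : SR n (cf σ) = -n := by
  unfold SR
  have : ∀ j ∈ range n, val (cf σ j) = -1 := by
    intro j _
    rw [val, if_pos (cf_lt2 σ j)]
  rw [Finset.sum_congr rfl this]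
  simp

/-- Ordinary vertices, Right to move. -/
theorem punR {c : Lb} {ρ : ℕ → ℕ} (hc : ladj M c (18, M.1.length, 0, 0) = true)
    (hρ : ∀ i < M.1.length, ρ i < 4) : LW M true (c, M.1.length, ρ) := by
  refine .win (.ctl (c' := (18, M.1.length, 0, 0)) hc (ok_path (by norm_num) (by norm_num) le_rfl)
    (fun j _ => reg_ne_path (by norm_num))) (pure_win (Pure.RA le_rfl hρ) ?_)
  have := (SR_bounds M.1.length ρ).1
  linarith

/-- Ordinary vertices, Left to move. -/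
theorem punL {c : Lb} {n : ℕ} {ρ : ℕ → ℕ} (hc : radj M c (19, M.1.length, 0, 0) = true)
    (hn : n ≤ M.1.length) (hρ : ∀ i < M.1.length, ρ i < 4) : ¬ LW M false (c, n, ρ) := by
  intro h
  cases h with
  | all h =>
    have h1 := h _ (.ctl (c' := (19, M.1.length, 0, 0)) hc
      (ok_path (by norm_num) (by norm_num) le_rfl) (fun j _ => reg_ne_path (by norm_num)))
    refine (pure_not (Pure.RB (n := n) le_rfl hρ)).1 ?_ h1
    have := (SR_bounds M.1.length ρ).2
    have h3 : (n : ℤ) ≤ M.1.length := by exact_mod_cast hn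
    linarith

/-- the moves from ordinary vertices -/
theorem ordR {c : Lb} {ρ : ℕ → ℕ} {s' : St} (hc : ladj M c (18, M.1.length, 0, 0) = true)
    (hρ : ∀ i < M.1.length, ρ i < 4) (h : Step M false (c, M.1.length, ρ) s') :
    LW M true s' ∨ ∃ c', radj M c c' = true ∧ ok M c' = true ∧
      (∀ j < M.1.length, c' ≠ reg j (ρ j)) ∧ s' = (c', M.1.length, ρ) := by
  cases h with
  | @ctl _ _ c' _ _ h h2 hf => exact Or.inr ⟨c', h, h2, hf, rfl⟩
  | @rg _ _ _ _ i z hi h hc' => exact Or.inl (punR hc (upd_lt hρ (yadj_lt h)))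

theorem ordL {c : Lb} {ρ : ℕ → ℕ} {s' : St} (hc : radj M c (19, M.1.length, 0, 0) = true)
    (hρ : ∀ i < M.1.length, ρ i < 4) (h : Step M true (c, M.1.length, ρ) s') :
    ¬ LW M false s' ∨ ∃ c', ladj M c c' = true ∧ ok M c' = true ∧
      (∀ j < M.1.length, c' ≠ reg j (ρ j)) ∧ s' = (c', M.1.length, ρ) := by
  generalize hN : M.1.length = N at h
  cases h with
  | @ctl _ _ c' _ _ h h2 hf => exact Or.inr ⟨c', h, h2, by rwa [hN] at hf, rfl⟩
  | @res _ n _ => exact Or.inl (punL hc (by omega) hρ)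
  | @rg _ _ _ _ i z hi h hc' => exact Or.inl (punL hc (by omega) (upd_lt hρ (yadj_lt h)))

/-- Left enters the region of a register. -/
theorem entL {c : Lb} {n j y : ℕ} {ρ : ℕ → ℕ} (hj : j < M.1.length) (hy : y < 4)
    (hc : ladj M c (reg j y) = true) (hne : ρ j ≠ y) (hρ : ∀ i < M.1.length, ρ i < 4)
    (hT : 0 ≤ (n : ℤ) + SR M.1.length ρ + (pv y (ρ j) - val (ρ j))) : LW M true (c, n, ρ) := by
  refine .win (.ctl (c' := reg j y) hc (ok_reg hj hy) (fun i _ h => ?_))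
    (pure_win (Pure.reg hj hy hne hρ) hT)
  simp at h
  obtain ⟨rfl, h⟩ := h
  exact hne h.symm

/-- Right enters the region of a register. -/
theorem entR {c : Lb} {n j y : ℕ} {ρ : ℕ → ℕ} (hj : j < M.1.length) (hy : y < 4)
    (hc : radj M c (reg j y) = true) (hne : ρ j ≠ y) (hρ : ∀ i < M.1.length, ρ i < 4)
    (hT : (n : ℤ) + SR M.1.length ρ + (pv y (ρ j) - val (ρ j)) ≤ 0) : ¬ LW M false (c, n, ρ) := by
  intro h
  cases h with
  | all h =>
    have h1 := h _ (.ctl (c' := reg j y) hc (ok_reg hj hy) (fun i _ h => by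
      simp at h
      obtain ⟨rfl, h⟩ := h
      exact hne h.symm))
    exact (pure_not (Pure.reg hj hy hne hρ)).1 hT h1

end Pool.Agent.NPC.Q328.EB
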