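import Pool.Agent.Q328.EB.Rej
import Pool.Agent.Q328.TH.Enc

/-!
# Edge Blocking: instances
-/

set_option autoImplicit false

namespace Pool.Agent.NPC.Q328.EB

open Pool.Agent.NPC Pool.Agent.H820R2.SS Pool.Agent.NPC.Q328.TH
open Pool.Agent.NPC.ANN (Lb rl pm us up ok3 ok3_iff Forces edg Bd Bd_regs Bd_rules Bd_prems Bd_upd)

/-! ### The game -/

/-- A move of Edge Blocking.  A position is the player to move (`true` : Left) and the set of the
occupied vertices; `E t` are the edges of player `t`.  A token is moved along an edge of the player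
to move onto an unoccupied vertex. -/
def EMove {V : Type} [DecidableEq V] (E : Bool → V → V → Prop) (x y : Bool × (V → Bool)) : Prop :=
  y.1 = (!x.1) ∧ ∃ u v, x.2 u = true ∧ x.2 v = false ∧ E x.1 u v ∧
    y.2 = Function.update (Function.update x.2 u false) v true

/-- Descriptions of positions of Edge Blocking: the edges of the digraph, the edges `E_L`, the edges
`E_R`, for every vertex whether it is occupied, and the player to move (`true` : Left).  The
vertices are the numbers smaller than the length of the list of occupations. -/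
abbrev EBl : Type := List (ℕ × ℕ) × ((List (ℕ × ℕ) × List (ℕ × ℕ)) × (List Bool × Bool))

/-- The description is correct: the edges join distinct vertices; `E_L` and `E_R` consist of edges
of the digraph. -/
def IsPosition (A : EBl) : Prop :=
  (∀ e ∈ A.1, e.1 < A.2.2.1.length ∧ e.2 < A.2.2.1.length ∧ e.1 ≠ e.2) ∧
  (∀ e ∈ A.2.1.1, e ∈ A.1) ∧ ∀ e ∈ A.2.1.2, e ∈ A.1

/-- the edges of a player -/
def Ed (A : EBl) (t : Bool) (u v : ℕ) : Prop := (u, v) ∈ (if t = true then A.2.1.1 else A.2.1.2)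

/-- The moves of the game. -/
def Mv (A : EBl) : Bool × (ℕ → Bool) → Bool × (ℕ → Bool) → Prop := EMove (Ed A)

/-- The position which is described. -/
def start (A : EBl) : Bool × (ℕ → Bool) := (A.2.2.2, fun v => A.2.2.1.getD v false)

/-- The player to move can force a win. -/
def MoverWins (A : EBl) : Prop := Forces (Mv A) true (start A)

/-- The other player can force a win. -/
def OtherWins (A : EBl) : Prop := Forces (Mv A) false (start A)

/-- Neither player can force a win. -/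
def Drawn (A : EBl) : Prop := ¬ MoverWins A ∧ ¬ OtherWins A

/-! ### Abstract positions as placements -/

variable {M : ARM}

/-- the occupied vertices -/
def Occ (M : ARM) (s : St) (v : Lb) : Prop :=
  v = s.1 ∨ v = (20, s.2.1, 0, 0) ∨ ∃ j < M.1.length, v = reg j (s.2.2 j)

/-- sane positions -/
def Inv (M : ARM) (s : St) : Prop :=
  ok M s.1 = true ∧ s.1.1 ≠ 20 ∧ s.2.1 ≤ M.1.length ∧ (∀ j < M.1.length, s.2.2 j < 4) ∧
    ∀ j < M.1.length, s.1 ≠ reg j (s.2.2 j)

theorem adj_ne20 {t : Bool} {u v : Lb} (h : adj M t u v = true) (hu : u.1 ≠ 20) : v.1 ≠ 20 := by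
  intro hv
  cases t
  · simp [adj, radj, hv] at h
    omega
  · simp [adj, ladj, hu, hv] at h
    omega

theorem adj_20 {t : Bool} {n : ℕ} {v : Lb} (hv : ok M v = true)
    (h : adj M t (20, n, 0, 0) v = true) : t = true ∧ ∃ n', n = n' + 1 ∧ v = (20, n', 0, 0) := by
  obtain ⟨k, a, b, c⟩ := v
  cases t
  · simp [adj, radj] at h
  · simp [adj, ladj] at h
    obtain ⟨rfl, rfl⟩ := h
    simp [ok] at hv
    exact ⟨rfl, a, rfl, by simp [hv]⟩

theorem adj_17 {t : Bool} {j y : ℕ} {v : Lb} (hv : ok M v = true)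
    (h : adj M t (reg j y) v = true) : ∃ y', v = reg j y' ∧ yadj t y y' = true := by
  cases t
  · rcases (radj_reg hv).1 h with ⟨h1, rfl⟩ | ⟨rfl, b, h1, rfl⟩
    · exact ⟨2, rfl, by simp [yadj, h1]⟩
    · exact ⟨b, rfl, by simp [yadj, h1]⟩
  · obtain ⟨rfl, rfl⟩ := (ladj_reg hv).1 h
    exact ⟨3, rfl, rfl⟩

theorem adj_of_yadj {t : Bool} {j y y' : ℕ} (h : yadj t y y' = true) :
    adj M t (reg j y) (reg j y') = true := by
  cases t
  · simp [adj, radj, yadj] at h ⊢
    exact h
  · simp [adj, ladj, yadj] at h ⊢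
    exact h

theorem adj_irrefl {t : Bool} {u : Lb} : adj M t u u = false := by
  obtain ⟨k, a, b, c⟩ := u
  cases t
  · simp [adj, radj, yadj]
    refine ⟨by omega, ?_⟩
    omega
  · simp [adj, ladj, yadj]
    omega

/-- the occupied vertices after a move -/
def Occ' (M : ARM) (s : St) (u v z : Lb) : Prop := z = v ∨ (z ≠ u ∧ Occ M s z)

theorem occ_ctl {c c' : Lb} {n : ℕ} {ρ : ℕ → ℕ} (hi : Inv M (c, n, ρ)) (z : Lb) :
    Occ M (c', n, ρ) z ↔ Occ' M (c, n, ρ) c c' z := by
  obtain ⟨h1, h2, h3, h4, h5⟩ := hi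
  simp only at h1 h2 h3 h4 h5
  unfold Occ' Occ
  simp only
  constructor
  · rintro (h | rfl | ⟨j, hj, rfl⟩)
    · exact Or.inl h
    · exact Or.inr ⟨fun h => h2 (by rw [← h]), Or.inr (Or.inl rfl)⟩
    · exact Or.inr ⟨fun h => h5 j hj h.symm, Or.inr (Or.inr ⟨j, hj, rfl⟩)⟩
  · rintro (h | ⟨h, h' | h' | h'⟩)
    · exact Or.inl h
    · exact absurd h' h
    · exact Or.inr (Or.inl h')
    · exact Or.inr (Or.inr h')

theorem occ_res {c : Lb} {n : ℕ} {ρ : ℕ → ℕ} (hi : Inv M (c, n + 1, ρ)) (z : Lb) :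
    Occ M (c, n, ρ) z ↔ Occ' M (c, n + 1, ρ) (20, n + 1, 0, 0) (20, n, 0, 0) z := by
  obtain ⟨h1, h2, h3, h4, h5⟩ := hi
  simp only at h1 h2 h3 h4 h5
  unfold Occ' Occ
  simp only
  constructor
  · rintro (h | rfl | ⟨j, hj, rfl⟩)
    · exact Or.inr ⟨fun h' => h2 (by rw [← h, h']), Or.inl h⟩
    · exact Or.inl rfl
    · exact Or.inr ⟨by simp, Or.inr (Or.inr ⟨j, hj, rfl⟩)⟩
  · rintro (h | ⟨h, h' | h' | h'⟩)
    · exact Or.inr (Or.inl h)
    · exact Or.inl h'
    · exact absurd h' h
    · exact Or.inr (Or.inr h')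

theorem occ_rg {c : Lb} {n j y : ℕ} {ρ : ℕ → ℕ} (hj : j < M.1.length)
    (hi : Inv M (c, n, ρ)) (z : Lb) :
    Occ M (c, n, Function.update ρ j y) z ↔ Occ' M (c, n, ρ) (reg j (ρ j)) (reg j y) z := by
  obtain ⟨h1, h2, h3, h4, h5⟩ := hi
  simp only at h1 h2 h3 h4 h5
  unfold Occ' Occ
  simp only
  constructor
  · rintro (h | rfl | ⟨i, hi, rfl⟩)
    · exact Or.inr ⟨fun h' => h5 j hj (by rw [← h, h']), Or.inl h⟩
    · exact Or.inr ⟨by simp, Or.inr (Or.inl rfl)⟩
    · by_cases hij : i = j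
      · subst hij
        rw [Function.update_self]
        exact Or.inl rfl
      · rw [Function.update_of_ne hij]
        exact Or.inr ⟨by simp [hij], Or.inr (Or.inr ⟨i, hi, rfl⟩)⟩
  · rintro (h | ⟨h, h' | h' | ⟨i, hi, h'⟩⟩)
    · exact Or.inr (Or.inr ⟨j, hj, by rw [Function.update_self]; exact h⟩)
    · exact Or.inl h'
    · exact Or.inr (Or.inl h')
    · refine Or.inr (Or.inr ⟨i, hi, ?_⟩)
      have hij : i ≠ j := by
        rintro rfl
        exact h h'
      rw [Function.update_of_ne hij]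
      exact h'

theorem step_fwd {t : Bool} {s s' : St} (hi : Inv M s) (h : Step M t s s') :
    ∃ u v, ok M u = true ∧ ok M v = true ∧ Occ M s u ∧ ¬ Occ M s v ∧ adj M t u v = true ∧
      (∀ z, Occ M s' z ↔ Occ' M s u v z) ∧ Inv M s' := by
  have hi' := hi
  cases h with
  | @ctl _ c c' n ρ h h2 hf =>
    obtain ⟨h1, h2', h3, h4, h5⟩ := hi'
    simp only at h1 h2' h3 h4 h5
    have h20 := adj_ne20 h h2'
    refine ⟨c, c', h1, h2, Or.inl rfl, ?_, h, occ_ctl hi, h2, h20, h3, h4, hf⟩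
    rintro (h6 | h6 | ⟨j, hj, h6⟩)
    · simp only at h6
      rw [h6, adj_irrefl] at h
      exact absurd h (by decide)
    · simp only at h6
      exact h20 (by rw [h6])
    · exact hf j hj h6
  | @res c n ρ =>
    obtain ⟨h1, h2, h3, h4, h5⟩ := hi'
    simp only at h1 h2 h3 h4 h5
    refine ⟨(20, n + 1, 0, 0), (20, n, 0, 0), ok_path (by norm_num) (by norm_num) (by omega),
      ok_path (by norm_num) (by norm_num) (by omega), Or.inr (Or.inl rfl), ?_,
      by simp [adj, ladj], occ_res hi, h1, h2, by simp only; omega, h4, h5⟩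
    rintro (h6 | h6 | ⟨j, hj, h6⟩)
    · simp only at h6
      exact h2 (by rw [← h6])
    · simp at h6
    · simp at h6
  | @rg _ c n ρ j y hj h hc =>
    obtain ⟨h1, h2, h3, h4, h5⟩ := hi'
    simp only at h1 h2 h3 h4 h5
    have hy := yadj_lt h
    refine ⟨reg j (ρ j), reg j y, ok_reg hj (h4 j hj), ok_reg hj hy,
      Or.inr (Or.inr ⟨j, hj, rfl⟩), ?_, adj_of_yadj h, occ_rg hj hi, h1, h2, h3,
      upd_lt h4 hy, ?_⟩
    · rintro (h6 | h6 | ⟨i, hi, h6⟩)
      · exact hc h6.symm
      · simp at h6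
      · simp at h6
        obtain ⟨rfl, h6⟩ := h6
        rw [h6] at h
        have h7 : adj M t (reg j (ρ j)) (reg j (ρ j)) = true := adj_of_yadj h
        rw [adj_irrefl] at h7
        exact absurd h7 (by decide)
    · intro i hi'
      simp only
      by_cases hij : i = j
      · subst hij
        rw [Function.update_self]
        exact hc
      · rw [Function.update_of_ne hij]
        exact h5 i hi'

theorem step_bwd {t : Bool} {s : St} {u v : Lb} (hi : Inv M s) (hu : Occ M s u)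
    (hv : ¬ Occ M s v) (hok : ok M v = true) (h : adj M t u v = true) :
    ∃ s', Step M t s s' ∧ (∀ z, Occ M s' z ↔ Occ' M s u v z) ∧ Inv M s' := by
  obtain ⟨c, n, ρ⟩ := s
  have key : ∀ s', Step M t (c, n, ρ) s' → (∀ z, Occ M s' z ↔ Occ' M (c, n, ρ) u v z) →
      ∃ s', Step M t (c, n, ρ) s' ∧ (∀ z, Occ M s' z ↔ Occ' M (c, n, ρ) u v z) ∧ Inv M s' := by
    intro s' h1 h2
    obtain ⟨_, _, _, _, _, _, _, _, h3⟩ := step_fwd hi h1
    exact ⟨s', h1, h2, h3⟩
  rcases hu with hu | hu | ⟨j, hj, hu⟩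
  · simp only at hu
    subst hu
    refine key (v, n, ρ) (.ctl h hok fun j hj h' => hv (Or.inr (Or.inr ⟨j, hj, h'⟩)))
      (occ_ctl hi)
  · simp only at hu
    subst hu
    obtain ⟨rfl, n', rfl, rfl⟩ := adj_20 hok h
    exact key (c, n', ρ) .res (occ_res hi)
  · simp only at hu
    subst hu
    obtain ⟨y', rfl, h1⟩ := adj_17 hok h
    exact key _ (.rg hj h1 fun h' => hv (Or.inl h'.symm)) (occ_rg hj hi)

/-! ### Numbering -/

theorem enc : Enc (id : Lb → Lb) 21 ok ok where
  inj := Function.injective_id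
  ok_code _ _ := rfl
  surj _ z _ _ := ⟨z, rfl⟩
  bound M z hz := by
    have h1 := Bd_regs M
    have h2 := Bd_rules M
    obtain ⟨k, a, b, c⟩ := z
    simp only [id]
    have h3 : ∀ {a b c : ℕ}, ok3 M a b c = true → a < Bd M ∧ b < Bd M ∧ c < Bd M := by
      intro a b c h
      have h4 := ok3_iff.1 h
      exact ⟨by omega, Bd_prems h4.1 h4.2.1, Bd_upd h⟩
    simp only [ok, Bool.or_eq_true, Bool.and_eq_true, decide_eq_true_eq, Prod.mk.injEq] at hz
    rcases hz with hz | hz | hz | hz | hz | hz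
    · omega
    · omega
    · have := h3 hz.2
      omega
    · have := h3 hz.2.2
      omega
    · omega
    · omega

/-- the labels -/
abbrev vs (M : ARM) : List Lb := vsG 21 ok M

/-- the number of a vertex -/
abbrev nu (M : ARM) (v : Lb) : ℕ := nuG id 21 ok M v

/-- the initial placement -/
def pl (c : ℕ) (n : ℕ) (z : Lb) : Bool :=
  decide (z = (c, 0, 0, 0)) || ((decide (z.1 = 17) && decide (z.2.2.1 = 0)) ||
    (decide (z.1 = 20) && decide (z.2.1 = n)))

/-- The instance. -/
def inst (c : ℕ) (t : Bool) (M : ARM) : EBl :=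
  (edg (vs M) (ladj M) ++ edg (vs M) (radj M), ((edg (vs M) (ladj M), edg (vs M) (radj M)),
    ((vs M).map (pl c M.1.length), t)))

theorem mem_edL {M : ARM} {x y : ℕ} {t : Bool} (c : ℕ) (t' : Bool) :
    Ed (inst c t' M) t x y ↔ ∃ u v, ok M u = true ∧ ok M v = true ∧ adj M t u v = true ∧
      nu M u = x ∧ nu M v = y := by
  unfold Ed inst
  cases t
  · exact mem_edgG enc
  · exact mem_edgG enc

theorem inst_isPosition (c : ℕ) (t : Bool) (M : ARM) : IsPosition (inst c t M) := by
  have hlen : (inst c t M).2.2.1.length = (vs M).length := by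
    simp [inst]
  refine ⟨?_, ?_, ?_⟩
  · rw [hlen]
    rintro ⟨x, y⟩ he
    simp only [inst, List.mem_append] at he
    rcases he with he | he
    · obtain ⟨u, v, hu, hv, h, rfl, rfl⟩ := (mem_edgG enc).1 he
      refine ⟨nuG_lt enc hu, nuG_lt enc hv, fun h2 => ?_⟩
      have h3 := nuG_inj enc hu hv h2
      subst h3
      have h4 : adj M true u u = true := h
      rw [adj_irrefl] at h4
      exact absurd h4 (by decide)
    · obtain ⟨u, v, hu, hv, h, rfl, rfl⟩ := (mem_edgG enc).1 he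
      refine ⟨nuG_lt enc hu, nuG_lt enc hv, fun h2 => ?_⟩
      have h3 := nuG_inj enc hu hv h2
      subst h3
      have h4 : adj M false u u = true := h
      rw [adj_irrefl] at h4
      exact absurd h4 (by decide)
  · intro e he
    exact List.mem_append_left _ he
  · intro e he
    exact List.mem_append_right _ he

/-- the relation between abstract and concrete positions -/
def Rel (M : ARM) (x : Bool × St) (y : Bool × (ℕ → Bool)) : Prop :=
  y.1 = x.1 ∧ Inv M x.2 ∧ ∀ n, y.2 n = true ↔ ∃ v, ok M v = true ∧ Occ M x.2 v ∧ nu M v = n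

theorem rel_next {t : Bool} {s s' : St} {Q : ℕ → Bool} {u v : Lb} (h : Rel M (t, s) (t, Q))
    (hu : ok M u = true) (hv : ok M v = true) (ho : ∀ z, Occ M s' z ↔ Occ' M s u v z)
    (hi : Inv M s') : Rel M (!t, s') (!t, Function.update (Function.update Q (nu M u) false)
      (nu M v) true) := by
  refine ⟨rfl, hi, fun n => ?_⟩
  simp only [Function.update_apply]
  constructor
  · intro h1
    by_cases h2 : n = nu M v
    · exact ⟨v, hv, (ho v).2 (Or.inl rfl), h2.symm⟩
    · rw [if_neg h2] at h1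
      by_cases h3 : n = nu M u
      · rw [if_pos h3] at h1
        exact absurd h1 (by decide)
      · rw [if_neg h3] at h1
        obtain ⟨w, hw, h4, rfl⟩ := (h.2.2 n).1 h1
        exact ⟨w, hw, (ho w).2 (Or.inr ⟨fun h5 => h3 (by rw [h5]), h4⟩), rfl⟩
  · rintro ⟨w, hw, h4, rfl⟩
    by_cases h2 : nu M w = nu M v
    · rw [if_pos h2]
    · rw [if_neg h2]
      rcases (ho w).1 h4 with h5 | ⟨h5, h6⟩
      · exact absurd (by rw [h5]) h2
      · rw [if_neg (fun h7 => h5 (nuG_inj enc hw hu h7))]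
        exact (h.2.2 _).2 ⟨w, hw, h6, rfl⟩

theorem occ_ok {s : St} (hi : Inv M s) {v : Lb} (h : Occ M s v) : ok M v = true := by
  obtain ⟨h1, h2, h3, h4, h5⟩ := hi
  rcases h with h | h | ⟨j, hj, h⟩
  · rw [h]; exact h1
  · rw [h]; exact ok_path (by norm_num) (by norm_num) h3
  · rw [h]; exact ok_reg hj (h4 j hj)

theorem bisim {c : ℕ} {t' : Bool} {w : Bool} {x : Bool × St} {y : Bool × (ℕ → Bool)}
    (h : Rel M x y) : Forces (mv M) w x ↔ Forces (Mv (inst c t' M)) w y := by
  refine Forces.bisim_iff (R := Rel M) ?_ ?_ h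
  · rintro ⟨t, s⟩ ⟨t1, Q⟩ hR ⟨t2, s'⟩ ⟨h1, h2⟩
    obtain rfl : t1 = t := hR.1
    simp only at h1 h2
    subst h1
    obtain ⟨u, v, hu, hv, h3, h4, h5, h6, h7⟩ := step_fwd hR.2.1 h2
    refine ⟨_, ⟨rfl, nu M u, nu M v, (hR.2.2 _).2 ⟨u, hu, h3, rfl⟩, ?_,
      (mem_edL c t').2 ⟨u, v, hu, hv, h5, rfl, rfl⟩, rfl⟩, rel_next hR hu hv h6 h7⟩
    by_contra hne
    have hne' : Q (nu M v) = true := by simpa using hne
    obtain ⟨w, hw, h8, h9⟩ := (hR.2.2 _).1 hne'
    rw [nuG_inj enc hw hv h9] at h8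
    exact h4 h8
  · rintro ⟨t, s⟩ ⟨t1, Q⟩ hR ⟨t2, Q'⟩ ⟨h1, x, y, h2, h3, h4, h5⟩
    obtain rfl : t1 = t := hR.1
    simp only at h1 h2 h3 h4 h5
    subst h1 h5
    obtain ⟨u, v, hu, hv, h6, rfl, rfl⟩ := (mem_edL c t').1 h4
    obtain ⟨u', hu', h7, h8⟩ := (hR.2.2 _).1 h2
    have h9 := nuG_inj enc hu' hu h8
    subst h9
    have h10 : ¬ Occ M s v := by
      intro h
      have := (hR.2.2 (nu M v)).2 ⟨v, hv, h, rfl⟩
      rw [show (t1, Q).2 (nu M v) = false from h3] at this
      exact absurd this (by decide)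
    obtain ⟨s', h11, h12, h13⟩ := step_bwd hR.2.1 h7 h10 hv h6
    exact ⟨(!t1, s'), ⟨rfl, h11⟩, rel_next hR hu hv h12 h13⟩

/-- The outcome of the instance. -/
theorem inst_forces {c : ℕ} (hc : c ≤ 1) (t : Bool) (M : ARM) (w : Bool) :
    Forces (Mv (inst c t M)) w (start (inst c t M)) ↔
    Forces (mv M) w (t, ((c, 0, 0, 0), M.1.length, cf fun _ => false)) := by
  have h4 := cf_lt (fun _ => false) M.1.length
  refine (bisim ⟨rfl, ⟨?_, ?_, le_rfl, h4, ne_reg ?_ _⟩, fun n => ?_⟩).symm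
  · simp [ok]; omega
  · simp only; omega
  · simp only; omega
  · unfold start inst
    simp only
    constructor
    · intro h
      by_cases hn : n < (vs M).length
      · obtain ⟨v, hv, rfl⟩ := nuG_surj enc hn
        rw [map_getD enc _ _ hv] at h
        refine ⟨v, hv, ?_, rfl⟩
        simp only [pl, id, Bool.or_eq_true, Bool.and_eq_true, decide_eq_true_eq] at h
        rcases h with h | ⟨h1, h2⟩ | ⟨h1, h2⟩
        · exact Or.inl h
        · obtain ⟨k, a, b, c'⟩ := v
          simp only at h1 h2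
          subst h1 h2
          simp [ok] at hv
          exact Or.inr (Or.inr ⟨a, hv.1, by simp [hv.2, cf]⟩)
        · obtain ⟨k, a, b, c'⟩ := v
          simp only at h1 h2
          subst h1 h2
          simp [ok] at hv
          exact Or.inr (Or.inl (by simp [hv]))
      · rw [List.getD_eq_default _ _ (by rw [List.length_map]; omega)] at h
        exact absurd h (by decide)
    · rintro ⟨v, hv, h, rfl⟩
      rw [map_getD enc _ _ hv]
      simp only [pl, id, Bool.or_eq_true, Bool.and_eq_true, decide_eq_true_eq]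
      rcases h with h | h | ⟨j, hj, h⟩
      · exact Or.inl h
      · right; right
        rw [h]
        exact ⟨rfl, rfl⟩
      · right; left
        rw [h]
        exact ⟨rfl, by simp [cf]⟩

end Pool.Agent.NPC.Q328.EB
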