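import Pool.Agent.Y669.EX.AndOr
import Pool.Agent.Q328.EB.Enc

/-!
# The outcome of Edge Blocking is decidable in exponential time

(The development of `Pool.Agent.Y669.EX.Ann` for Annihilation, adapted.)
-/

set_option autoImplicit false

namespace Pool.Agent.NPC.Q328.EB

open Turing Pool.Agent.NPC Pool.Agent.Y669.EX
open Pool.Agent.NPC.ANN (Forces)

/-- the occupied vertices after a move -/
def newP (P : List Bool) (u v : ℕ) : List Bool :=
  (List.range P.length).map (fun x => decide (x = v) || (!(decide (x = u)) && P.getD x false))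

/-- the edges of a player -/
def edl (A : EBl) (t : Bool) : List (ℕ × ℕ) := bif t then A.2.1.1 else A.2.1.2

/-- the list of the positions after one move -/
def mvs (A : EBl) (x : Bool × List Bool) : List (Bool × List Bool) :=
  ((edl A x.1).filter (fun e => x.2.getD e.1 false && !(x.2.getD e.2 false))).map
    (fun e => (!x.1, newP x.2 e.1 e.2))

theorem mem_mvs {A : EBl} {x y : Bool × List Bool} : y ∈ mvs A x ↔ ∃ u v,
    x.2.getD u false = true ∧ x.2.getD v false = false ∧ Ed A x.1 u v ∧
      y = (!x.1, newP x.2 u v) := by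
  unfold mvs Ed edl
  rw [List.mem_map]
  constructor
  · rintro ⟨⟨u, v⟩, he, rfl⟩
    rw [List.mem_filter] at he
    simp only [Bool.and_eq_true, Bool.not_eq_true'] at he
    refine ⟨u, v, he.2.1, he.2.2, ?_, rfl⟩
    have h := he.1
    revert h
    cases x.1 <;> exact fun h => h
  · rintro ⟨u, v, h1, h2, h3, rfl⟩
    refine ⟨(u, v), ?_, rfl⟩
    rw [List.mem_filter]
    simp only [Bool.and_eq_true, Bool.not_eq_true']
    refine ⟨?_, h1, h2⟩
    revert h3
    cases x.1 <;> exact fun h => h

theorem length_newP (P : List Bool) (u v : ℕ) : (newP P u v).length = P.length := by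
  simp [newP]

theorem getD_newP {P : List Bool} {u v : ℕ} (hv : v < P.length) :
    (fun x => (newP P u v).getD x false) =
      Function.update (Function.update (fun x => P.getD x false) u false) v true := by
  funext x
  rw [Function.update_apply, Function.update_apply]
  unfold newP
  by_cases hx : x < P.length
  · rw [List.getD_eq_getElem _ _ (by simpa using hx)]
    simp only [List.getElem_map, List.getElem_range]
    split_ifs with h1 h2 <;> simp [h1] <;> simp [h2]
  · rw [List.getD_eq_default _ _ (by simpa using hx)]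
    rw [if_neg (by omega)]
    split_ifs
    · rfl
    · rw [List.getD_eq_default _ _ (by omega)]

/-- All edges which can be used join vertices. -/
def InRange (A : EBl) (n : ℕ) : Prop := ∀ t u v, Ed A t u v → u < n ∧ v < n

theorem forces_iff {A : EBl} {x : Bool × List Bool} (hA : InRange A x.2.length) (w : Bool) :
    Forces (Mv A) w (x.1, fun v => x.2.getD v false) ↔ Forces (fun x y => y ∈ mvs A x) w x := by
  refine Forces.bisim_iff (R := fun (F : Bool × (ℕ → Bool)) (l : Bool × List Bool) =>
    F = (l.1, fun v => l.2.getD v false) ∧ l.2.length = x.2.length) ?_ ?_ ⟨rfl, rfl⟩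
  · rintro F l ⟨rfl, hl⟩ ⟨t', F'⟩ ⟨h0, u, v, h1, h2, h3, h4⟩
    simp only at h0 h1 h2 h3 h4
    subst h0 h4
    refine ⟨(!l.1, newP l.2 u v), mem_mvs.2 ⟨u, v, h1, h2, h3, rfl⟩, ?_, ?_⟩
    · rw [Prod.mk.injEq]
      exact ⟨rfl, (getD_newP (by rw [hl]; exact (hA _ _ _ h3).2)).symm⟩
    · simp only
      rw [length_newP, hl]
  · rintro F l ⟨rfl, hl⟩ l' hl'
    obtain ⟨u, v, h1, h2, h3, rfl⟩ := mem_mvs.1 hl'
    refine ⟨(!l.1, Function.update (Function.update (fun x => l.2.getD x false) u false) v true),
      ⟨rfl, u, v, h1, h2, h3, rfl⟩, ?_, ?_⟩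
    · rw [Prod.ext_iff]
      exact ⟨rfl, (getD_newP (by rw [hl]; exact (hA _ _ _ h3).2)).symm⟩
    · simp only
      rw [length_newP, hl]

/-- states: a tag and a position -/
abbrev St' : Type := ℕ × (Bool × List Bool)

/-- tags: `0` the other player wins, `1` the player to move wins, `2` one of the players wins -/
def ex (_ : EBl) (s : St') : Bool := decide (1 ≤ s.1)

/-- successors -/
def suc (A : EBl) (s : St') : List St' :=
  if s.1 = 0 then (mvs A s.2).map (fun P => (1, P))
  else if s.1 = 1 then (mvs A s.2).map (fun P => (0, P))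
  else [(0, s.2), (1, s.2)]

theorem acc_of_forces {A : EBl} {w : Bool} {P : Bool × List Bool}
    (h : Forces (fun P Q => Q ∈ mvs A P) w P) : Acc ex suc A (w.toNat, P) := by
  induction h with
  | @win p q h hq ih =>
    refine Acc.some (s' := (0, q)) rfl ?_ ih
    simp only [suc, Bool.toNat_true, one_ne_zero, if_false, if_true, List.mem_map]
    exact ⟨q, h, rfl⟩
  | @lose p h ih =>
    refine Acc.all rfl ?_
    intro s' hs'
    simp only [suc, Bool.toNat_false, if_true, List.mem_map] at hs'
    obtain ⟨q, hq, rfl⟩ := hs'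
    exact ih q hq

theorem forces_of_acc {A : EBl} {s : St'} (h : Acc ex suc A s) :
    (s.1 = 0 → Forces (fun P Q => Q ∈ mvs A P) false s.2) ∧
    (s.1 = 1 → Forces (fun P Q => Q ∈ mvs A P) true s.2) ∧
    (s.1 = 2 → Forces (fun P Q => Q ∈ mvs A P) false s.2 ∨
      Forces (fun P Q => Q ∈ mvs A P) true s.2) := by
  induction h with
  | @some s s' h hs h' ih =>
    refine ⟨fun h0 => ?_, fun h1 => ?_, fun h2 => ?_⟩
    · simp [ex, h0] at h
    · simp only [suc, h1, one_ne_zero, if_false, if_true, List.mem_map] at hs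
      obtain ⟨q, hq, rfl⟩ := hs
      exact .win hq (ih.1 rfl)
    · simp only [suc, h2] at hs
      norm_num at hs
      rcases hs with rfl | rfl
      · exact Or.inl (ih.1 rfl)
      · exact Or.inr (ih.2.1 rfl)
  | @all s h h' ih =>
    have hs0 : s.1 = 0 := by
      simp only [ex, decide_eq_false_iff_not] at h
      omega
    refine ⟨fun h0 => .lose fun q hq => ?_, fun h1 => by omega, fun h2 => by omega⟩
    have := ih (1, q) (by simp only [suc, h0, if_true, List.mem_map]; exact ⟨q, hq, rfl⟩)
    exact this.2.1 rfl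

theorem acc_iff (A : EBl) (P : Bool × List Bool) :
    (Acc ex suc A (0, P) ↔ Forces (fun P Q => Q ∈ mvs A P) false P) ∧
    (Acc ex suc A (1, P) ↔ Forces (fun P Q => Q ∈ mvs A P) true P) ∧
    (Acc ex suc A (2, P) ↔ Forces (fun P Q => Q ∈ mvs A P) false P ∨
      Forces (fun P Q => Q ∈ mvs A P) true P) := by
  refine ⟨⟨fun h => (forces_of_acc h).1 rfl, fun h => acc_of_forces h⟩,
    ⟨fun h => (forces_of_acc h).2.1 rfl, fun h => acc_of_forces h⟩,
    ⟨fun h => (forces_of_acc h).2.2 rfl, ?_⟩⟩
  rintro (h | h)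
  · exact Acc.some (s' := (0, P)) rfl (by simp [suc]) (acc_of_forces h)
  · exact Acc.some (s' := (1, P)) rfl (by simp [suc]) (acc_of_forces h)

/-! ### Sizes and polynomial time -/

/-- the length of the codes of the states -/
def mA (A : EBl) : ℕ := (10 * sz A + 40) * (10 * sz A + 40)

theorem mA_upoly : UPoly mA := by
  have h : UPoly (fun A : EBl => 10 * sz A + 40) :=
    UPoly.add (UPoly.mul (UPoly.const 10) ((UPoly.length (NPC.Med.poly_bits (α := EBl))).congr
      fun a => by beta_reduce; rw [bits_length])) (UPoly.const 40)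
  exact UPoly.mul h h

/-- the states which occur -/
def oks (A : EBl) (s : St') : Prop := s.1 ≤ 2 ∧ s.2.2.length = A.2.2.1.length

theorem suc_ok (A : EBl) (s : St') (hs : oks A s) : ∀ s' ∈ suc A s, oks A s' := by
  have key : ∀ Q ∈ mvs A s.2, Q.2.length = A.2.2.1.length := by
    intro Q hQ
    obtain ⟨u, v, h1, h2, h3, rfl⟩ := mem_mvs.1 hQ
    simp only
    rw [length_newP]
    exact hs.2
  intro s' hs'
  unfold suc at hs'
  split_ifs at hs' with c1 c2
  · obtain ⟨Q, hQ, rfl⟩ := List.mem_map.1 hs'
    exact ⟨by norm_num, key Q hQ⟩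
  · obtain ⟨Q, hQ, rfl⟩ := List.mem_map.1 hs'
    exact ⟨by norm_num, key Q hQ⟩
  · simp only [List.mem_cons, List.not_mem_nil, or_false] at hs'
    rcases hs' with rfl | rfl
    · exact ⟨by norm_num, hs.2⟩
    · exact ⟨by norm_num, hs.2⟩

theorem sz_parts (A : EBl) : sz A.2.2.1 ≤ sz A ∧ sz A.2.1.1 ≤ sz A ∧ sz A.2.1.2 ≤ sz A := by
  obtain ⟨a, ⟨b, c⟩, d, e⟩ := A
  rw [sz_pair, sz_pair, sz_pair, sz_pair]
  simp only
  omega

theorem ok_bits (A : EBl) (s : St') (hs : oks A s) : (bits s).length + 1 ≤ mA A := by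
  obtain ⟨t, b, P⟩ := s
  obtain ⟨h1, h2⟩ := hs
  simp only at h1 h2
  obtain ⟨e1, -, -⟩ := sz_parts A
  have h5 := length_lt_sz A.2.2.1
  have h6 := sz_listBool_le P
  have h7 : sz t ≤ 20 := by
    have h8 := sz_nat_le t
    have h9 : t.size ≤ t := by
      rw [Nat.size_le]
      exact Nat.lt_two_pow_self
    omega
  have h8 := sz_bool_le b
  rw [bits_length, sz_pair, sz_pair]
  have h9 : P.length ≤ sz A := by rw [h2]; omega
  unfold mA
  nlinarith

theorem length_mvs (A : EBl) (x : Bool × List Bool) : (mvs A x).length ≤ sz A := by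
  unfold mvs edl
  rw [List.length_map]
  refine (List.length_filter_le _ _).trans ?_
  obtain ⟨-, e1, e2⟩ := sz_parts A
  have h1 := length_lt_sz A.2.1.1
  have h2 := length_lt_sz A.2.1.2
  cases x.1
  · simp only [cond_false]; omega
  · simp only [cond_true]; omega

theorem ok_length (A : EBl) (s : St') (_ : oks A s) : (suc A s).length ≤ mA A := by
  have h := length_mvs A s.2
  unfold suc mA
  split_ifs
  · rw [List.length_map]
    nlinarith
  · rw [List.length_map]
    nlinarith
  · simp only [List.length_cons, List.length_nil]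
    nlinarith

theorem poly_newP {α : Type} [TEnc α] {P : α → List Bool} {u v : α → ℕ}
    (hP : NPC.Poly P) (hu : NPC.Poly u) (hv : NPC.Poly v) :
    NPC.Poly (fun a => newP (P a) (u a) (v a)) := by
  unfold newP
  have h1 : NPC.Poly (fun a => List.range (P a).length) := (UPoly.length hP).range
  fun_prop

theorem poly_mvs : NPC.Poly (fun p : EBl × (Bool × List Bool) => mvs p.1 p.2) := by
  unfold mvs edl
  refine NPC.Poly.map (F := fun (r : EBl × (Bool × List Bool))
    (e : ℕ × ℕ) => (!r.2.1, newP r.2.2 e.1 e.2)) ?_ ?_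
  · fun_prop
  · have h := poly_newP (α := (EBl × (Bool × List Bool)) × (ℕ × ℕ)) (P := fun q => q.1.2.2)
      (u := fun q => q.2.1) (v := fun q => q.2.2) (by fun_prop) (by fun_prop) (by fun_prop)
    fun_prop

theorem poly_ex : NPC.Poly (fun p : EBl × St' => ex p.1 p.2) := by
  unfold ex
  fun_prop

theorem poly_suc : NPC.Poly (fun p : EBl × St' => suc p.1 p.2) := by
  unfold suc
  have h : NPC.Poly (fun p : EBl × St' => mvs p.1 p.2.2) :=
    poly_mvs.comp (f := fun p : EBl × St' => (p.1, p.2.2)) (by fun_prop)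
  fun_prop

/-! ### The test for positions -/

/-- the test for correct descriptions -/
def posB (A : EBl) : Bool :=
  A.1.all (fun e => decide (e.1 < A.2.2.1.length) && (decide (e.2 < A.2.2.1.length) &&
    !(decide (e.1 = e.2)))) &&
  (A.2.1.1.all (fun e => decide (e ∈ A.1)) && A.2.1.2.all (fun e => decide (e ∈ A.1)))

theorem posB_iff (A : EBl) : posB A = true ↔ IsPosition A := by
  unfold posB IsPosition
  simp only [Bool.and_eq_true, List.all_eq_true, decide_eq_true_eq, Bool.not_eq_true',
    decide_eq_false_iff_not]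

theorem poly_posB : NPC.Poly posB := by
  unfold posB
  exact NPC.Poly.and (by fun_prop) (NPC.Poly.and (by fun_prop) (by fun_prop))

theorem inRange_of {A : EBl} (hA : IsPosition A) : InRange A A.2.2.1.length := by
  intro t u v he
  have h : (u, v) ∈ A.1 := by
    unfold Ed at he
    split_ifs at he
    · exact hA.2.1 _ he
    · exact hA.2.2 _ he
  exact ⟨(hA.1 _ h).1, (hA.1 _ h).2.1⟩

theorem start_forces {A : EBl} (hA : IsPosition A) (w : Bool) :
    Forces (Mv A) w (start A) ↔ Forces (fun P Q => Q ∈ mvs A P) w (A.2.2.2, A.2.2.1) :=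
  forces_iff (x := (A.2.2.2, A.2.2.1)) (inRange_of hA) w

/-- the coded position -/
noncomputable def rd (x : List Bool) : EBl := (unbits EBl x).getD ([], (([], []), ([], true)))

theorem poly_rd : NPC.Poly rd :=
  Poly.optGetD (g := fun _ => ([], (([], []), ([], true)))) (poly_unbits (α := EBl))
    (NPC.Poly.const _)

theorem exptime_tag (t : ℕ) (ht : t ≤ 2) (neg : Bool) {q : EBl → Bool} (hq : NPC.Poly q) :
    InEXPB (lang (fun A : EBl => IsPosition A ∧ q A = true ∧
      (Acc ex suc A (t, (A.2.2.2, A.2.2.1)) ↔ neg = false))) := by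
  have hb : NPC.Poly (fun x : List Bool => (unbits EBl x).isSome && (posB (rd x) && q (rd x))) :=
    NPC.Poly.and (NPC.Poly.isSome poly_unbits)
      (NPC.Poly.and (poly_posB.comp poly_rd) (hq.comp poly_rd))
  have hst : NPC.Poly (fun A : EBl => ((t, (A.2.2.2, A.2.2.1)) : St')) := by fun_prop
  refine inEXPB_of_acc (ok := oks) mA_upoly poly_ex poly_suc hst
    poly_rd hb ?_ suc_ok ok_bits ok_length neg ?_
  · intro x hx
    exact ⟨ht, rfl⟩
  · intro x
    rw [mem_lang_iff, Bool.and_eq_true, Bool.and_eq_true, posB_iff]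
    constructor
    · rintro ⟨A, h1, h2, h2', h3⟩
      have h4 : rd x = A := by
        unfold rd
        rw [h1]
        rfl
      rw [h4, h1]
      exact ⟨⟨rfl, h2, h2'⟩, h3⟩
    · rintro ⟨⟨h1, h2, h2'⟩, h3⟩
      obtain ⟨A, hA⟩ := Option.isSome_iff_exists.1 h1
      have h4 : rd x = A := by
        unfold rd
        rw [hA]
        rfl
      rw [h4] at h2 h2' h3
      exact ⟨A, hA, h2, h2', h3⟩

theorem lang_congr {α : Type} [TEnc α] {P Q : α → Prop} (h : ∀ a, P a ↔ Q a) :
    lang P = lang Q := by
  congr 1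
  funext a
  exact propext (h a)

/-- The three outcomes. -/
theorem exp_of {W : EBl → Prop} (hW : W = MoverWins ∨ W = OtherWins ∨ W = Drawn)
    {q : EBl → Bool} (hq : NPC.Poly q) :
    InEXPB (lang (fun A : EBl => IsPosition A ∧ q A = true ∧ W A)) := by
  rcases hW with rfl | rfl | rfl
  · rw [lang_congr (Q := fun A : EBl => IsPosition A ∧ q A = true ∧
      (Acc ex suc A (1, (A.2.2.2, A.2.2.1)) ↔ false = false)) fun A =>
        and_congr_right fun hA => and_congr_right fun _ => ?_]
    · exact exptime_tag 1 (by norm_num) false hq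
    · unfold MoverWins
      rw [start_forces hA, (acc_iff A _).2.1]
      simp
  · rw [lang_congr (Q := fun A : EBl => IsPosition A ∧ q A = true ∧
      (Acc ex suc A (0, (A.2.2.2, A.2.2.1)) ↔ false = false)) fun A =>
        and_congr_right fun hA => and_congr_right fun _ => ?_]
    · exact exptime_tag 0 (by norm_num) false hq
    · unfold OtherWins
      rw [start_forces hA, (acc_iff A _).1]
      simp
  · rw [lang_congr (Q := fun A : EBl => IsPosition A ∧ q A = true ∧
      (Acc ex suc A (2, (A.2.2.2, A.2.2.1)) ↔ true = false)) fun A =>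
        and_congr_right fun hA => and_congr_right fun _ => ?_]
    · exact exptime_tag 2 le_rfl true hq
    · unfold Drawn MoverWins OtherWins
      rw [start_forces hA, start_forces hA, (acc_iff A _).2.2]
      simp only [Bool.true_eq_false, iff_false, not_or]
      tauto

end Pool.Agent.NPC.Q328.EB
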