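import Pool.Agent.Q328.EB.Exp
import Pool.Agent.H578R2.ARM.Main

/-!
# Edge Blocking: the lower bound
-/

set_option autoImplicit false

namespace Pool.Agent.NPC.Q328.EB

open Pool.Agent.NPC Pool.Agent.H820R2.SS Pool.Agent.NPC.Q328.TH
open Pool.Agent.NPC.ANN (Lb rl pm us up ok3 Forces edg Bd poly_rl poly_pm poly_us poly_up poly_ok3)

@[fun_prop]
theorem poly_toNat {α : Type} [TEnc α] {b : α → Bool} (hb : NPC.Poly b) :
    NPC.Poly (fun x => (b x).toNat) := by
  have h : (fun x => (b x).toNat) = fun x => bif b x then 1 else 0 := by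
    funext x
    cases b x <;> rfl
  rw [h]
  fun_prop

theorem poly_ok : NPC.Poly (fun p : ARM × Lb => ok p.1 p.2) := by
  unfold ok
  fun_prop

theorem poly_ladj : NPC.Poly (fun p : ARM × (Lb × Lb) => ladj p.1 p.2.1 p.2.2) := by
  unfold ladj rj rv yadj
  fun_prop

theorem poly_radj : NPC.Poly (fun p : ARM × (Lb × Lb) => radj p.1 p.2.1 p.2.2) := by
  unfold radj rj yadj
  fun_prop

theorem poly_inst (c : ℕ) (t : Bool) : NPC.Poly (fun M : ARM => inst c t M) := by
  have h0 := poly_vsG 21 poly_ok
  have h1 : NPC.Poly (fun M : ARM => edg (vs M) (ladj M)) :=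
    poly_edgG poly_ok (t := fun M => ladj M) poly_ladj
  have h2 : NPC.Poly (fun M : ARM => edg (vs M) (radj M)) :=
    poly_edgG poly_ok (t := fun M => radj M) poly_radj
  unfold inst pl
  fun_prop

/-- Hardness for the three outcomes. -/
theorem hard_of {W : EBl → Prop} (hW : W = MoverWins ∨ W = OtherWins ∨ W = Drawn)
    {q : EBl → Bool} (hq : ∀ c t M, q (inst c t M) = true)
    {L : Set (List Bool)} (hL : InEXPTIME L) :
    Reduces L (lang (fun A : EBl => IsPosition A ∧ q A = true ∧ W A)) := by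
  rcases hW with rfl | rfl | rfl
  · obtain ⟨f, h1, h2, h3⟩ := ARM578.exptime_arm (L := L) hL
    refine ⟨fun x => bits (inst 0 true (f x)),
      PC.toPolyTime_bits (poly_inst 0 true) f h1, fun x => ?_⟩
    rw [bits_mem_lang]
    rw [and_iff_right (inst_isPosition 0 true (f x)), and_iff_right (hq _ _ _), MoverWins,
      inst_forces (by norm_num), h3 x, ← LW_iff]
    exact (win_G (h2 x) _).symm
  · obtain ⟨f, h1, h2, h3⟩ := ARM578.exptime_arm (L := L) hL
    refine ⟨fun x => bits (inst 1 false (f x)),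
      PC.toPolyTime_bits (poly_inst 1 false) f h1, fun x => ?_⟩
    rw [bits_mem_lang]
    rw [and_iff_right (inst_isPosition 1 false (f x)), and_iff_right (hq _ _ _), OtherWins,
      inst_forces (by norm_num), h3 x, ← LW_iff]
    exact (lose_I (h2 x) _).symm
  · obtain ⟨f, h1, h2, h3⟩ := ARM578.exptime_arm_compl (L := L) hL
    refine ⟨fun x => bits (inst 0 true (f x)),
      PC.toPolyTime_bits (poly_inst 0 true) f h1, fun x => ?_⟩
    rw [bits_mem_lang]
    rw [and_iff_right (inst_isPosition 0 true (f x)), and_iff_right (hq _ _ _), Drawn, MoverWins,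
      OtherWins, inst_forces (by norm_num), inst_forces (by norm_num)]
    have h4 := h3 x
    have h5 : Forces (mv (f x)) true (true, ((0, 0, 0, 0), (f x).1.length, cf fun _ => false)) ↔
        ARMAcc (f x) := LW_iff.symm.trans (win_G (h2 x) (fun _ => false))
    rw [h5, ← h4, not_not]
    exact ⟨fun h => ⟨h, not_lose_G _⟩, fun h => h.1⟩

end Pool.Agent.NPC.Q328.EB
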