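import Pool.Agent.Q328.EB.Board

/-!
# Edge Blocking: the potential

When the control token is out of play every move of Right raises the potential by one and every
move of Left lowers it by at least one.
-/

set_option autoImplicit false

namespace Pool.Agent.NPC.Q328.EB

open Pool.Agent.NPC Pool.Agent.H820R2.SS Finset
open Pool.Agent.NPC.ANN (Lb rl pm us up ok3)

/-- the value of a register token -/
def val (y : ℕ) : ℤ := if y < 2 then -1 else if y = 2 then 0 else -2

/-- the value of two tokens in a region -/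
def pv (y y' : ℕ) : ℤ :=
  if y < 2 then (if y' < 2 then -1 else if y' = 2 then 0 else -2)
  else if y = 2 then (if y' < 2 then 0 else -1) else (if y' < 2 then -2 else -1)

/-- the sum over the registers -/
def SR (n : ℕ) (ρ : ℕ → ℕ) : ℤ := ∑ j ∈ range n, val (ρ j)

theorem SR_update {n j : ℕ} (hj : j < n) (ρ : ℕ → ℕ) (y : ℕ) :
    SR n (Function.update ρ j y) = SR n ρ + (val y - val (ρ j)) := by
  unfold SR
  have h1 := Finset.sum_erase_add (range n) (fun i => val (ρ i)) (mem_range.2 hj)
  have h2 := Finset.sum_erase_add (range n) (fun i => val (Function.update ρ j y i))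
    (mem_range.2 hj)
  have h3 : ∑ i ∈ (range n).erase j, val (Function.update ρ j y i) =
      ∑ i ∈ (range n).erase j, val (ρ i) := by
    refine Finset.sum_congr rfl fun i hi => ?_
    rw [Function.update_of_ne (Finset.ne_of_mem_erase hi)]
  simp only [Function.update_self] at h2
  rw [← h1, ← h2, h3]
  ring

theorem val_cases (y : ℕ) : -2 ≤ val y ∧ val y ≤ 0 := by
  unfold val
  split_ifs <;> omega

theorem SR_bounds (n : ℕ) (ρ : ℕ → ℕ) : -(2 * n : ℤ) ≤ SR n ρ ∧ SR n ρ ≤ 0 := by
  unfold SR
  constructor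
  · have h := Finset.card_nsmul_le_sum (range n) (fun j => val (ρ j)) (-2)
      (fun j _ => (val_cases (ρ j)).1)
    simp only [card_range, smul_eq_mul, nsmul_eq_mul] at h
    linarith
  · exact Finset.sum_nonpos fun j _ => (val_cases (ρ j)).2

theorem SR_le_val {n j : ℕ} (hj : j < n) (ρ : ℕ → ℕ) : SR n ρ ≤ val (ρ j) := by
  have h := SR_update hj ρ 2
  have h2 := (SR_bounds n (Function.update ρ j 2)).2
  rw [h] at h2
  rw [show val 2 = 0 from rfl] at h2
  linarith

/-- the control token is out of play, and the potential -/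
inductive Pure (M : ARM) : St → ℤ → Prop
  | reg {j y n : ℕ} {ρ : ℕ → ℕ} (hj : j < M.1.length) (hy : y < 4) (hne : ρ j ≠ y)
      (hρ : ∀ i < M.1.length, ρ i < 4) :
      Pure M (reg j y, n, ρ) (n + SR M.1.length ρ + (pv y (ρ j) - val (ρ j)))
  | RA {a n : ℕ} {ρ : ℕ → ℕ} (ha : a ≤ M.1.length) (hρ : ∀ i < M.1.length, ρ i < 4) :
      Pure M ((18, a, 0, 0), n, ρ) (n + SR M.1.length ρ + a)
  | RB {a n : ℕ} {ρ : ℕ → ℕ} (ha : a ≤ M.1.length) (hρ : ∀ i < M.1.length, ρ i < 4) :
      Pure M ((19, a, 0, 0), n, ρ) (n + SR M.1.length ρ - a)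

/-- the free moves of Left -/
def mea (s : St) : ℕ := s.2.1 + if s.1.1 = 18 then s.1.2.1 else 0

variable {M : ARM}

theorem ladj_reg {j y : ℕ} {z : Lb} (hz : ok M z = true) :
    ladj M (reg j y) z = true ↔ y = 2 ∧ z = reg j 3 := by
  obtain ⟨k, a, b, c⟩ := z
  simp [ladj, yadj]
  constructor
  · rintro ⟨rfl, rfl, rfl, rfl⟩
    simp [ok] at hz
    simp [hz]
  · rintro ⟨rfl, rfl, rfl, rfl, rfl⟩
    simp

theorem radj_reg {j y : ℕ} {z : Lb} (hz : ok M z = true) :
    radj M (reg j y) z = true ↔ (y < 2 ∧ z = reg j 2) ∨ (y = 3 ∧ ∃ b < 2, z = reg j b) := by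
  obtain ⟨k, a, b, c⟩ := z
  simp [radj, yadj]
  constructor
  · rintro ⟨rfl, rfl, h⟩
    simp [ok] at hz
    simp only [hz.2.2, true_and, and_true]
    exact h
  · tauto

theorem ladj_RA {a : ℕ} {z : Lb} (hz : ok M z = true) :
    ladj M (18, a, 0, 0) z = true ↔ ∃ a', a = a' + 1 ∧ z = (18, a', 0, 0) := by
  obtain ⟨k, a', b, c⟩ := z
  simp [ladj]
  constructor
  · rintro ⟨rfl, rfl⟩
    simp [ok] at hz
    exact ⟨rfl, rfl, hz.2.1, hz.2.2⟩
  · tauto

theorem radj_RA {a : ℕ} {z : Lb} : radj M (18, a, 0, 0) z = false := by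
  simp [radj]

theorem ladj_RB {a : ℕ} {z : Lb} : ladj M (19, a, 0, 0) z = false := by
  simp [ladj]

theorem radj_RB {a : ℕ} {z : Lb} (hz : ok M z = true) :
    radj M (19, a, 0, 0) z = true ↔ ∃ a', a = a' + 1 ∧ z = (19, a', 0, 0) := by
  obtain ⟨k, a', b, c⟩ := z
  simp [radj]
  constructor
  · rintro ⟨rfl, rfl⟩
    simp [ok] at hz
    exact ⟨rfl, rfl, hz.2.1, hz.2.2⟩
  · tauto

theorem upd_lt {n j y : ℕ} {ρ : ℕ → ℕ} (hρ : ∀ i < n, ρ i < 4) (hy : y < 4) :
    ∀ i < n, Function.update ρ j y i < 4 := by
  intro i hi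
  rw [Function.update_apply]
  split_ifs
  · exact hy
  · exact hρ i hi

theorem yadj_lt {t : Bool} {y y' : ℕ} (h : yadj t y y' = true) : y' < 4 := by
  cases t <;> simp [yadj] at h <;> omega

/-- Right's moves raise the potential by one. -/
theorem stepR {s s' : St} {T : ℤ} (h : Pure M s T) (hs : Step M false s s') :
    Pure M s' (T + 1) ∧ mea s' = mea s := by
  cases h with
  | @reg j y n ρ hj hy hne hρ =>
    cases hs with
    | @ctl _ _ c' _ _ h h2 hf =>
      rcases (radj_reg h2).1 h with ⟨h3, rfl⟩ | ⟨rfl, b, h3, rfl⟩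
      · have h4 : ρ j ≠ 2 := fun h => hf j hj (by rw [h])
        refine ⟨?_, rfl⟩
        convert Pure.reg (n := n) hj (by norm_num : 2 < 4) h4 hρ using 1
        have h5 := hρ j hj
        simp only [pv, val]
        split_ifs <;> omega
      · have h4 : ρ j ≠ b := fun h => hf j hj (by rw [h])
        refine ⟨?_, rfl⟩
        convert Pure.reg (n := n) hj (by omega : b < 4) h4 hρ using 1
        have h5 := hρ j hj
        simp only [pv, val]
        split_ifs <;> omega
    | @rg _ _ _ _ i z hi h hc =>
      refine ⟨?_, rfl⟩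
      have hz := yadj_lt h
      by_cases hij : i = j
      · subst hij
        have h4 : z ≠ y := fun h => hc (by rw [h])
        convert Pure.reg (n := n) (ρ := Function.update ρ i z) hj hy
          (by rw [Function.update_self]; exact h4) (upd_lt hρ hz) using 1
        rw [SR_update hj, Function.update_self]
        have h5 := hρ i hj
        simp [yadj] at h
        simp only [pv, val]
        split_ifs <;> omega
      · convert Pure.reg (n := n) (ρ := Function.update ρ i z) hj hy
          (by rw [Function.update_of_ne (Ne.symm hij)]; exact hne) (upd_lt hρ hz) using 1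
        rw [SR_update hi, Function.update_of_ne (Ne.symm hij)]
        have h5 : val z - val (ρ i) = 1 := by
          simp [yadj] at h
          simp only [val]
          split_ifs <;> omega
        rw [h5]
        ring
  | @RA a n ρ ha hρ =>
    cases hs with
    | @ctl _ _ c' _ _ h h2 hf =>
      simp only [adj, cond_false] at h
      rw [radj_RA] at h
      exact absurd h (by decide)
    | @rg _ _ _ _ i z hi h hc =>
      refine ⟨?_, rfl⟩
      convert Pure.RA (n := n) (ρ := Function.update ρ i z) ha (upd_lt hρ (yadj_lt h)) using 1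
      rw [SR_update hi]
      have h5 : val z - val (ρ i) = 1 := by
        simp [yadj] at h
        simp only [val]
        split_ifs <;> omega
      rw [h5]
      ring
  | @RB a n ρ ha hρ =>
    cases hs with
    | @ctl _ _ c' _ _ h h2 hf =>
      obtain ⟨a', rfl, rfl⟩ := (radj_RB h2).1 h
      refine ⟨?_, rfl⟩
      convert Pure.RB (n := n) (by omega : a' ≤ M.1.length) hρ using 1
      push_cast
      ring
    | @rg _ _ _ _ i z hi h hc =>
      refine ⟨?_, rfl⟩
      convert Pure.RB (n := n) (ρ := Function.update ρ i z) ha (upd_lt hρ (yadj_lt h)) using 1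
      rw [SR_update hi]
      have h5 : val z - val (ρ i) = 1 := by
        simp [yadj] at h
        simp only [val]
        split_ifs <;> omega
      rw [h5]
      ring

/-- Left's moves lower the potential. -/
theorem stepL {s s' : St} {T : ℤ} (h : Pure M s T) (hs : Step M true s s') :
    ∃ T', T' < T ∧ Pure M s' T' := by
  cases h with
  | @reg j y n ρ hj hy hne hρ =>
    cases hs with
    | @ctl _ _ c' _ _ h h2 hf =>
      obtain ⟨rfl, rfl⟩ := (ladj_reg h2).1 h
      have h4 : ρ j ≠ 3 := fun h => hf j hj (by rw [h])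
      refine ⟨_, ?_, Pure.reg (n := n) hj (by norm_num : 3 < 4) h4 hρ⟩
      have h5 := hρ j hj
      simp only [pv, val]
      split_ifs <;> omega
    | @res _ n _ =>
      refine ⟨_, ?_, Pure.reg (n := n) hj hy hne hρ⟩
      push_cast
      linarith
    | @rg _ _ _ _ i z hi h hc =>
      have hz := yadj_lt h
      by_cases hij : i = j
      · subst hij
        have h4 : z ≠ y := fun h => hc (by rw [h])
        refine ⟨_, ?_, Pure.reg (n := n) (ρ := Function.update ρ i z) hj hy
          (by rw [Function.update_self]; exact h4) (upd_lt hρ hz)⟩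
        rw [SR_update hj, Function.update_self]
        have h5 := hρ i hj
        simp [yadj] at h
        simp only [pv, val]
        split_ifs <;> omega
      · refine ⟨_, ?_, Pure.reg (n := n) (ρ := Function.update ρ i z) hj hy
          (by rw [Function.update_of_ne (Ne.symm hij)]; exact hne) (upd_lt hρ hz)⟩
        rw [SR_update hi, Function.update_of_ne (Ne.symm hij)]
        have h5 : val z - val (ρ i) = -2 := by
          simp [yadj] at h
          simp only [val]
          split_ifs <;> omega
        rw [h5]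
        linarith
  | @RA a n ρ ha hρ =>
    cases hs with
    | @ctl _ _ c' _ _ h h2 hf =>
      obtain ⟨a', rfl, rfl⟩ := (ladj_RA h2).1 h
      refine ⟨_, ?_, Pure.RA (n := n) (by omega : a' ≤ M.1.length) hρ⟩
      push_cast
      linarith
    | @res _ n _ =>
      refine ⟨_, ?_, Pure.RA (n := n) ha hρ⟩
      push_cast
      linarith
    | @rg _ _ _ _ i z hi h hc =>
      refine ⟨_, ?_, Pure.RA (n := n) (ρ := Function.update ρ i z) ha (upd_lt hρ (yadj_lt h))⟩
      rw [SR_update hi]
      have h5 : val z - val (ρ i) = -2 := by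
        simp [yadj] at h
        simp only [val]
        split_ifs <;> omega
      rw [h5]
      linarith
  | @RB a n ρ ha hρ =>
    cases hs with
    | @ctl _ _ c' _ _ h h2 hf =>
      simp only [adj, cond_true] at h
      rw [ladj_RB] at h
      exact absurd h (by decide)
    | @res _ n _ =>
      refine ⟨_, ?_, Pure.RB (n := n) ha hρ⟩
      push_cast
      linarith
    | @rg _ _ _ _ i z hi h hc =>
      refine ⟨_, ?_, Pure.RB (n := n) (ρ := Function.update ρ i z) ha (upd_lt hρ (yadj_lt h))⟩
      rw [SR_update hi]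
      have h5 : val z - val (ρ i) = -2 := by
        simp [yadj] at h
        simp only [val]
        split_ifs <;> omega
      rw [h5]
      linarith

theorem reg_ne_path {j y k a : ℕ} (hk : 18 ≤ k) : ((k, a, 0, 0) : Lb) ≠ reg j y := by
  intro h
  have := congrArg (fun z : Lb => z.1) h
  simp only at this
  omega

theorem ok_reg {j y : ℕ} (hj : j < M.1.length) (hy : y < 4) : ok M (reg j y) = true := by
  simp [ok, hj, hy]

theorem ok_path {k a : ℕ} (hk : 18 ≤ k) (hk2 : k ≤ 20) (ha : a ≤ M.1.length) :
    ok M (k, a, 0, 0) = true := by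
  simp [ok, hk, hk2, ha]

/-- Left has a free move when the potential is positive. -/
theorem exL {s : St} {T : ℤ} (h : Pure M s T) (hT : 0 < T) :
    ∃ s', Step M true s s' ∧ Pure M s' (T - 1) ∧ mea s' < mea s := by
  cases h with
  | @reg j y n ρ hj hy hne hρ =>
    have h1 := SR_le_val hj ρ
    have h2 : pv y (ρ j) ≤ 0 := by
      unfold pv
      split_ifs <;> omega
    obtain ⟨m, rfl⟩ : ∃ m, n = m + 1 := ⟨n - 1, by omega⟩
    refine ⟨_, .res, ?_, by simp only [mea]; omega⟩
    convert Pure.reg (n := m) hj hy hne hρ using 1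
    push_cast
    ring
  | @RA a n ρ ha hρ =>
    have h1 := (SR_bounds M.1.length ρ).2
    rcases Nat.eq_zero_or_pos n with rfl | hn
    · obtain ⟨a', rfl⟩ : ∃ m, a = m + 1 := ⟨a - 1, by push_cast at hT; omega⟩
      refine ⟨_, .ctl (c' := (18, a', 0, 0)) ?_ (ok_path (by norm_num) (by norm_num) (by omega))
        (fun j _ => reg_ne_path (by norm_num)), ?_, by simp [mea]⟩
      · exact (ladj_RA (M := M) (ok_path (by norm_num) (by norm_num) (by omega))).2 ⟨a', rfl, rfl⟩
      · convert Pure.RA (n := 0) (by omega : a' ≤ M.1.length) hρ using 1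
        push_cast
        ring
    · obtain ⟨m, rfl⟩ : ∃ m, n = m + 1 := ⟨n - 1, by omega⟩
      refine ⟨_, .res, ?_, by simp only [mea]; omega⟩
      convert Pure.RA (n := m) ha hρ using 1
      push_cast
      ring
  | @RB a n ρ ha hρ =>
    have h1 := (SR_bounds M.1.length ρ).2
    obtain ⟨m, rfl⟩ : ∃ m, n = m + 1 := ⟨n - 1, by omega⟩
    refine ⟨_, .res, ?_, by simp only [mea]; omega⟩
    convert Pure.RB (n := m) ha hρ using 1
    push_cast
    ring

/-- a region in which Right can move -/
theorem exists_neg {n : ℕ} {ρ : ℕ → ℕ} (h : SR n ρ < 0) : ∃ j < n, ρ j ≠ 2 := by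
  by_contra hno
  push Not at hno
  have : SR n ρ = 0 := by
    refine Finset.sum_eq_zero fun j hj => ?_
    rw [hno j (mem_range.1 hj)]
    rfl
  omega

/-- a free register token -/
theorem move_free {c : Lb} {n j : ℕ} {ρ : ℕ → ℕ} (hj : j < M.1.length) (h4 : ρ j < 4)
    (h : ρ j ≠ 2) (hc : ∀ y, c ≠ reg j y) : ∃ s', Step M false (c, n, ρ) s' := by
  by_cases h1 : ρ j < 2
  · exact ⟨_, .rg (j := j) (y := 2) hj (by simp [yadj, h1]) (hc _)⟩
  · exact ⟨_, .rg (j := j) (y := 0) hj (by simp [yadj]; omega) (hc _)⟩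

/-- Right has a move when the potential is negative. -/
theorem exR {s : St} {T : ℤ} (h : Pure M s T) (hT : T < 0) : ∃ s', Step M false s s' := by
  cases h with
  | @reg j y n ρ hj hy hne hρ =>
    by_cases h2 : pv y (ρ j) = 0
    · have h3 := SR_update hj ρ 2
      have h4 : SR M.1.length (Function.update ρ j 2) < 0 := by
        rw [h3]
        simp only [val] at hT ⊢
        norm_num
        omega
      obtain ⟨i, hi, hi2⟩ := exists_neg h4
      have hij : i ≠ j := fun h => hi2 (by rw [h, Function.update_self])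
      rw [Function.update_of_ne hij] at hi2
      exact move_free hi (hρ i hi) hi2 (fun y' h => hij (by simp at h; exact h.1.symm))
    · have h3 : ρ j ≠ 2 ∨ y ≠ 2 := by
        by_contra h
        push Not at h
        exact hne (by rw [h.1, h.2])
      have h4 := hρ j hj
      by_cases ha : ρ j < 2 ∧ y ≠ 2
      · exact ⟨_, .rg (j := j) (y := 2) hj (by simp [yadj, ha.1])
          (fun h => ha.2 (by simp at h; exact h))⟩
      · have hb : ρ j = 3 ∨ y = 3 := by
          unfold pv at h2
          by_contra h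
          push Not at h
          split_ifs at h2 <;> first | omega | simp at h2
        rcases hb with hb | hb
        · have hbb : ∃ b < 2, b ≠ y := by
            by_cases h0 : y = 0
            · exact ⟨1, by norm_num, by omega⟩
            · exact ⟨0, by norm_num, by omega⟩
          obtain ⟨b, hb1, hb2⟩ := hbb
          exact ⟨_, .rg (j := j) (y := b) hj (by simp [yadj, hb]; omega)
            (fun h => hb2 (by simp at h; exact h.symm))⟩
        · have hbb : ∃ b < 2, b ≠ ρ j := by
            by_cases h0 : ρ j = 0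
            · exact ⟨1, by norm_num, by omega⟩
            · exact ⟨0, by norm_num, by omega⟩
          obtain ⟨b, hb1, hb2⟩ := hbb
          refine ⟨_, .ctl (c' := reg j b) ?_ (ok_reg hj (by omega)) (fun i hi h => ?_)⟩
          · exact (radj_reg (ok_reg hj (by omega))).2 (Or.inr ⟨hb, b, hb1, rfl⟩)
          · simp at h
            obtain ⟨rfl, h⟩ := h
            exact hb2 h
  | @RA a n ρ ha hρ =>
    have h1 : SR M.1.length ρ < 0 := by omega
    obtain ⟨i, hi, hi2⟩ := exists_neg h1
    exact move_free hi (hρ i hi) hi2 (fun y' => reg_ne_path (by norm_num))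
  | @RB a n ρ ha hρ =>
    rcases Nat.eq_zero_or_pos a with rfl | h
    · have h1 : SR M.1.length ρ < 0 := by push_cast at hT; omega
      obtain ⟨i, hi, hi2⟩ := exists_neg h1
      exact move_free hi (hρ i hi) hi2 (fun y' => reg_ne_path (by norm_num))
    · obtain ⟨a', rfl⟩ : ∃ m, a = m + 1 := ⟨a - 1, by omega⟩
      refine ⟨_, .ctl (c' := (19, a', 0, 0)) ?_ (ok_path (by norm_num) (by norm_num) (by omega))
        (fun j _ => reg_ne_path (by norm_num))⟩
      exact (radj_RB (M := M) (ok_path (by norm_num) (by norm_num) (by omega))).2 ⟨a', rfl, rfl⟩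

/-- With Right to move Left wins at potential `≥ 0`. -/
theorem pure_win {s : St} {T : ℤ} (h : Pure M s T) (hT : 0 ≤ T) : LW M false s := by
  generalize hm : mea s = m
  induction m using Nat.strong_induction_on generalizing s T with
  | _ m ih =>
    refine .all fun s' hs' => ?_
    obtain ⟨h1, h2⟩ := stepR h hs'
    obtain ⟨s'', h3, h4, h5⟩ := exL h1 (by omega)
    exact .win h3 (ih _ (by omega) h4 (by omega) rfl)

theorem pure_not {s : St} {T : ℤ} (h : Pure M s T) :
    (T ≤ 0 → ¬ LW M true s) ∧ (T < 0 → ¬ LW M false s) := by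
  have key1 : ∀ s, (∃ T ≤ 0, Pure M s T) → ∀ s', Step M true s s' →
      ¬ LW M false s' ∨ ∃ T < 0, Pure M s' T := by
    rintro s ⟨T, hT, h⟩ s' hs'
    obtain ⟨T', h1, h2⟩ := stepL h hs'
    exact Or.inr ⟨T', by omega, h2⟩
  have key2 : ∀ s, (∃ T < 0, Pure M s T) → ∃ s', Step M false s s' ∧
      (¬ LW M true s' ∨ ∃ T ≤ 0, Pure M s' T) := by
    rintro s ⟨T, hT, h⟩
    obtain ⟨s', hs'⟩ := exR h hT
    exact ⟨s', hs', Or.inr ⟨T + 1, by omega, (stepR h hs').1⟩⟩
  exact ⟨fun hT => LW.not_true_of key1 key2 ⟨T, hT, h⟩,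
    fun hT => LW.not_false_of key1 key2 ⟨T, hT, h⟩⟩

end Pool.Agent.NPC.Q328.EB
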