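import Pool.Agent.Q328.EB.Sim

/-!
# Edge Blocking: if the machine does not accept, Left does not win
-/

set_option autoImplicit false

namespace Pool.Agent.NPC.Q328.EB

open Pool.Agent.NPC Pool.Agent.H820R2.SS Finset
open Pool.Agent.NPC.ANN (Lb rl pm us up ok3 ok3_iff rl_mem pm_mem up_lt upd_take upd_nil
  upd_take_update ok3_pred Forces)

variable {M : ARM}

/-- Left to move, Left does not win -/
inductive NA (M : ARM) : St → Prop
  | G {σ : ℕ → Bool} (h : ¬ Der M.2.2 M.2.1 σ) : NA M ((0, 0, 0, 0), M.1.length, cf σ)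
  | C {r i k : ℕ} {σ : ℕ → Bool} (hk : ok3 M r i k = true)
      (h : ¬ Der M.2.2 (pm M r i).1 (upd σ ((us M r i).take k))) :
      NA M ((5, r, i, k), M.1.length, cf σ)
  | Q {r i k : ℕ} {σ : ℕ → Bool} (hk : ok3 M r i k = true) (h0 : 0 < k)
      (h : ¬ Der M.2.2 (pm M r i).1 (upd σ ((us M r i).take k))) :
      NA M ((8 + cf σ (up M r i k).1, r, i, k), M.1.length, cf σ)
  | V1 {r i k b : ℕ} {σ : ℕ → Bool} (hk : ok3 M r i k = true) (h0 : 0 < k) (hb : b < 2)
      (h : ¬ Der M.2.2 (pm M r i).1 (upd σ ((us M r i).take k))) :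
      NA M ((10 + b, r, i, k), M.1.length, lf σ (up M r i k).1 2)
  | V2 {r i k : ℕ} {σ : ℕ → Bool} (hk : ok3 M r i k = true) (h0 : 0 < k)
      (h : ¬ Der M.2.2 (pm M r i).1 (upd σ ((us M r i).take k))) :
      NA M ((13, r, i, k), M.1.length, lf σ (up M r i k).1 2)
  | O2 {r i k : ℕ} {σ : ℕ → Bool} (hk : ok3 M r i k = true) (h0 : 0 < k)
      (h : ¬ Der M.2.2 (pm M r i).1 (upd σ ((us M r i).take k))) :
      NA M ((14, r, i, k), M.1.length, lf σ (up M r i k).1 3)
  | V3 {r i k : ℕ} {σ : ℕ → Bool} (hk : ok3 M r i k = true) (h0 : 0 < k)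
      (hb : σ (up M r i k).1 = (up M r i k).2)
      (h : ¬ Der M.2.2 (pm M r i).1 (upd σ ((us M r i).take k))) :
      NA M ((15, r, i, k), M.1.length, cf σ)
  | B {σ : ℕ → Bool} : NA M ((3, 0, 0, 0), M.1.length, cf σ)

/-- Right to move, Left does not win -/
inductive NB (M : ARM) : St → Prop
  | R {r i : ℕ} {σ : ℕ → Bool} (hr : r < M.2.2.length) (hi : i < (rl M r).2.2.length)
      (h : ¬ Der M.2.2 (pm M r i).1 (upd σ (us M r i))) : NB M ((4, r, 0, 0), M.1.length, cf σ)
  | Q {r i k : ℕ} {σ : ℕ → Bool} (hk : ok3 M r i k = true) (h0 : 0 < k)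
      (h : ¬ Der M.2.2 (pm M r i).1 (upd σ ((us M r i).take k))) :
      NB M ((6 + cf σ (up M r i k).1, r, i, k), M.1.length, cf σ)
  | V1 {r i k b : ℕ} {σ : ℕ → Bool} (hk : ok3 M r i k = true) (h0 : 0 < k) (hb : b < 2)
      (h : ¬ Der M.2.2 (pm M r i).1 (upd σ ((us M r i).take k))) :
      NB M ((10 + b, r, i, k), M.1.length, cf σ)
  | O1 {r i k : ℕ} {σ : ℕ → Bool} (hk : ok3 M r i k = true) (h0 : 0 < k)
      (h : ¬ Der M.2.2 (pm M r i).1 (upd σ ((us M r i).take k))) :
      NB M ((12, r, i, k), M.1.length, lf σ (up M r i k).1 2)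
  | V2 {r i k : ℕ} {σ : ℕ → Bool} (hk : ok3 M r i k = true) (h0 : 0 < k)
      (h : ¬ Der M.2.2 (pm M r i).1 (upd σ ((us M r i).take k))) :
      NB M ((13, r, i, k), M.1.length, lf σ (up M r i k).1 3)
  | V3 {r i k : ℕ} {σ : ℕ → Bool} (hk : ok3 M r i k = true) (h0 : 0 < k)
      (h : ¬ Der M.2.2 (pm M r i).1 (upd σ ((us M r i).take k))) :
      NB M ((15, r, i, k), M.1.length, lf σ (up M r i k).1 3)
  | O3 {r i k : ℕ} {σ : ℕ → Bool} (hk : ok3 M r i (k + 1) = true)
      (h : ¬ Der M.2.2 (pm M r i).1 (upd σ ((us M r i).take k))) :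
      NB M ((16, r, i, k + 1), M.1.length, cf σ)
  | A {σ : ℕ → Bool} : NB M ((2, 0, 0, 0), M.1.length, cf σ)

/-- entering a rule -/
theorem enter_R {c : ℕ} {σ : ℕ → Bool} (hM : ARMPr M) (hc : ¬ Der M.2.2 c σ) {r : ℕ}
    (hr : r < M.2.2.length) (hh : (rl M r).1 = c) :
    ¬ LW M false ((4, r, 0, 0), M.1.length, cf σ) ∨ NB M ((4, r, 0, 0), M.1.length, cf σ) := by
  by_cases hg : ∀ g ∈ (rl M r).2.1, σ g.1 = g.2
  · right
    by_contra hno
    apply hc
    rw [← hh]
    refine .mk (rl M r) σ (rl_mem hr) hg fun s hs => ?_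
    by_contra hs'
    apply hno
    obtain ⟨i, hi, hi'⟩ := List.getElem_of_mem hs
    have : pm M r i = s := by
      unfold pm
      rw [List.getD_eq_getElem _ _ hi, hi']
    refine .R hr hi ?_
    unfold us
    rw [this]
    exact hs'
  · left
    push Not at hg
    obtain ⟨⟨j, b⟩, hg1, hg2⟩ := hg
    have hj : j < M.1.length := (hM _ (rl_mem hr)).1 _ hg1
    simp only at hg2
    have hb : b.toNat < 2 := by cases b <;> simp
    refine entR (j := j) (y := b.toNat) hj (by omega) ?_ ?_ (cf_lt _ _) ?_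
    · cases b <;> simp [radj] <;> exact hg1
    · unfold cf
      intro h
      exact hg2 (ANN.toNat_inj h)
    · rw [SR_cf]
      simp only [pv, val, if_pos hb, if_pos (cf_lt2 σ j)]
      norm_num

theorem closeA (hM : ARMPr M) : ∀ s, NA M s → ∀ s', Step M true s s' →
    ¬ LW M false s' ∨ NB M s' := by
  intro s hs s' hs'
  cases hs with
  | @G σ h =>
    rcases ordL (by simp [radj]) (cf_lt _ _) hs' with h1 | ⟨v', h1, h2, h3, rfl⟩
    · exact Or.inl h1
    · rcases ladj_G h2 h1 with rfl | ⟨r, rfl, h4⟩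
      · exact Or.inr .A
      · exact enter_R hM h (by simpa [ok] using h2) h4
  | @C r i k σ hk h =>
    rcases ordL (by simp [radj]) (cf_lt _ _) hs' with h1 | ⟨v', h1, h2, h3, rfl⟩
    · exact Or.inl h1
    · rcases ladj_C h2 h1 with ⟨rfl, r', rfl, h4⟩ | ⟨h0, b, hb, rfl⟩
      · rw [List.take_zero, upd_nil] at h
        exact enter_R hM h (by simpa [ok] using h2) h4
      · by_cases hbb : b = cf σ (up M r i k).1
        · subst hbb
          exact Or.inr (.Q hk h0 h)
        · left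
          have hj := up_lt hM hk h0
          refine entR (j := (up M r i k).1) (y := b) hj (by omega) ?_ (Ne.symm hbb)
            (cf_lt _ _) ?_
          · interval_cases b <;> simp [radj]
          · rw [SR_cf]
            simp only [pv, val, if_pos hb, if_pos (cf_lt2 σ _)]
            norm_num
  | @Q r i k σ hk h0 h =>
    have hb := cf_lt2 σ (up M r i k).1
    rcases ordL (by interval_cases cf σ (up M r i k).1 <;> simp [radj]) (cf_lt _ _) hs' with
      h1 | ⟨v', h1, h2, h3, rfl⟩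
    · exact Or.inl h1
    · rw [ladj_Q' hb h1]
      exact Or.inr (.V1 hk h0 hb h)
  | @V1 r i k b σ hk h0 hb h =>
    rcases dev1 hM hk h0 hb hs' with h1 | rfl
    · exact Or.inl h1
    · exact Or.inr (.O1 hk h0 h)
  | @V2 r i k σ hk h0 h =>
    rcases dev2 hM hk h0 hs' with h1 | rfl
    · exact Or.inl h1
    · exact Or.inr (.V2 hk h0 h)
  | @O2 r i k σ hk h0 h =>
    rcases ordL (by simp [radj]) (lf_lt (by norm_num) _) hs' with h1 | ⟨v', h1, h2, h3, rfl⟩
    · exact Or.inl h1
    · rw [ladj_O2 h1]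
      exact Or.inr (.V3 hk h0 h)
  | @V3 r i k σ hk h0 hb h =>
    rcases dev3 hM hk h0 hb hs' with h1 | rfl
    · exact Or.inl h1
    · obtain ⟨k', rfl⟩ : ∃ k', k = k' + 1 := ⟨k - 1, by omega⟩
      refine Or.inr (.O3 hk ?_)
      rw [upd_take hk h0, ← hb, Function.update_eq_self, Nat.add_sub_cancel] at h
      exact h
  | @B σ =>
    rcases ordL (by simp [radj]) (cf_lt _ _) hs' with h1 | ⟨v', h1, h2, h3, rfl⟩
    · exact Or.inl h1
    · rw [ladj_B h2 h1]
      exact Or.inr .A

theorem closeB (hM : ARMPr M) : ∀ s, NB M s → ∃ s', Step M false s s' ∧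
    (¬ LW M true s' ∨ NA M s') := by
  intro s hs
  cases hs with
  | @R r i σ hr hi h =>
    have hk : ok3 M r i (us M r i).length = true := by
      rw [ok3_iff]
      exact ⟨hr, hi, le_rfl⟩
    exact ⟨_, .ctl (c' := (5, r, i, (us M r i).length)) (by simp [adj, radj]) (ok_C hk)
      (ne_reg (by norm_num) _), Or.inr (.C hk (by rwa [List.take_length]))⟩
  | @Q r i k σ hk h0 h =>
    have hb := cf_lt2 σ (up M r i k).1
    refine ⟨_, .ctl (c' := (8 + cf σ (up M r i k).1, r, i, k)) ?_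
      (ok_K hk h0 (by omega) (by omega)) (ne_reg (by simp only; omega) _), Or.inr (.Q hk h0 h)⟩
    interval_cases cf σ (up M r i k).1 <;> simp [adj, radj]
  | @V1 r i k b σ hk h0 hb h =>
    have hj := up_lt hM hk h0
    have hb' := cf_lt2 σ (up M r i k).1
    refine ⟨((10 + b, r, i, k), M.1.length, lf σ (up M r i k).1 2), ?_, Or.inr (.V1 hk h0 hb h)⟩
    refine .rg (j := (up M r i k).1) (y := 2) hj (by simp [yadj]; omega) ?_
    intro h
    have := congrArg (fun z : Lb => z.1) h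
    simp only at this
    omega
  | @O1 r i k σ hk h0 h =>
    exact ⟨_, .ctl (c' := (13, r, i, k)) (by simp [adj, radj]) (ok_K hk h0 (by norm_num)
      (by norm_num)) (ne_reg (by norm_num) _), Or.inr (.V2 hk h0 h)⟩
  | @V2 r i k σ hk h0 h =>
    exact ⟨_, .ctl (c' := (14, r, i, k)) (by simp [adj, radj]) (ok_K hk h0 (by norm_num)
      (by norm_num)) (ne_reg (by norm_num) _), Or.inr (.O2 hk h0 h)⟩
  | @V3 r i k σ hk h0 h =>
    have hj := up_lt hM hk h0
    refine ⟨((15, r, i, k), M.1.length, cf (Function.update σ (up M r i k).1 (up M r i k).2)), ?_,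
      Or.inr (.V3 hk h0 (by simp) ?_)⟩
    · have h3 : cf (Function.update σ (up M r i k).1 (up M r i k).2) =
          Function.update (lf σ (up M r i k).1 3) (up M r i k).1 (up M r i k).2.toNat := by
        rw [cf_update]
        unfold lf
        rw [Function.update_idem]
      rw [h3]
      refine .rg hj ?_ (by simp)
      rw [lf_self]
      cases (up M r i k).2 <;> simp [yadj]
    · rw [upd_take_update hk h0]
      exact h
  | @O3 r i k σ hk h =>
    exact ⟨_, .ctl (c' := (5, r, i, k)) (by simp [adj, radj]) (ok_C (ok3_pred hk))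
      (ne_reg (by norm_num) _), Or.inr (.C (ok3_pred hk) h)⟩
  | @A σ =>
    exact ⟨_, .ctl (c' := (3, 0, 0, 0)) (by simp [adj, radj]) (by simp [ok])
      (ne_reg (by norm_num) _), Or.inr .B⟩

/-- Left wins at `G` if and only if the machine accepts. -/
theorem win_G (hM : ARMPr M) (σ : ℕ → Bool) :
    LW M true ((0, 0, 0, 0), M.1.length, cf σ) ↔ Der M.2.2 M.2.1 σ := by
  constructor
  · intro h
    by_contra hno
    exact LW.not_true_of (closeA hM) (closeB hM) (NA.G hno) h
  · intro h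
    exact acc hM h _ (Or.inl ⟨rfl, rfl⟩)

theorem lose_I (hM : ARMPr M) (σ : ℕ → Bool) :
    LW M false ((1, 0, 0, 0), M.1.length, cf σ) ↔ Der M.2.2 M.2.1 σ := by
  constructor
  · intro h
    cases h with
    | all h =>
      rw [← win_G hM]
      exact h _ (.ctl (c' := (0, 0, 0, 0)) (by simp [adj, radj]) (by simp [ok])
        (ne_reg (by norm_num) _))
  · intro h
    rw [← win_G hM] at h
    refine .all fun s' hs' => ?_
    rcases ordR (by simp [ladj]) (cf_lt _ _) hs' with h1 | ⟨v', h1, h2, h3, rfl⟩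
    · exact h1
    · rw [radj_I h2 h1]
      exact h

/-! ### The game on pairs of the player to move and a position -/

/-- Moves; `true` : Left is to move. -/
def mv (M : ARM) (x y : Bool × St) : Prop := y.1 = (!x.1) ∧ Step M x.1 x.2 y.2

theorem LW_of_forces {w : Bool} {x : Bool × St} (h : Forces (mv M) w x) :
    x.1 = w → LW M w x.2 := by
  induction h with
  | @win p q h hq ih =>
    intro hp
    obtain ⟨h1, h2⟩ := h
    rw [hp] at h1 h2
    exact .win h2 (ih h1)
  | @lose p h ih =>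
    intro hp
    refine .all fun s' hs' => ?_
    refine ih (true, s') ⟨by rw [hp]; rfl, by rw [hp]; exact hs'⟩ rfl

theorem LW_iff {t : Bool} {s : St} : LW M t s ↔ Forces (mv M) t (t, s) := by
  constructor
  · intro h
    induction h with
    | @win s s' h h' ih => exact .win (q := (false, s')) ⟨rfl, h⟩ ih
    | @all s h ih =>
      refine .lose fun q hq => ?_
      obtain ⟨t', s'⟩ := q
      obtain ⟨rfl, h2⟩ := hq
      exact ih s' h2
  · intro h
    exact LW_of_forces h rfl

/-- Left never loses at `G`. -/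
theorem not_lose_G (σ : ℕ → Bool) :
    ¬ Forces (mv M) false (true, ((0, 0, 0, 0), M.1.length, cf σ)) := by
  refine Forces.not_lose_of (A := fun x => x = (false, ((2, 0, 0, 0), M.1.length, cf σ)))
    (B := fun x => x = (true, ((0, 0, 0, 0), M.1.length, cf σ)) ∨
      x = (true, ((3, 0, 0, 0), M.1.length, cf σ))) ?_ ?_ (Or.inl rfl)
  · rintro x rfl ⟨t', s'⟩ ⟨h1, h2⟩
    simp only [Bool.not_false] at h1
    subst h1
    rcases ordR (by simp [ladj]) (cf_lt _ _) h2 with h1 | ⟨v', h4, h5, h3, rfl⟩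
    · exact Or.inl (LW_iff.1 h1)
    · rw [radj_A h5 h4]
      exact Or.inr (Or.inr rfl)
  · rintro x (rfl | rfl)
    · exact ⟨_, ⟨rfl, .ctl (c' := (2, 0, 0, 0)) (by simp [adj, ladj]) (by simp [ok])
        (ne_reg (by norm_num) _)⟩, rfl⟩
    · exact ⟨_, ⟨rfl, .ctl (c' := (2, 0, 0, 0)) (by simp [adj, ladj]) (by simp [ok])
        (ne_reg (by norm_num) _)⟩, rfl⟩

end Pool.Agent.NPC.Q328.EB
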