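import Pool.Agent.Q328.EB.Edges

/-!
# Edge Blocking: the simulation
-/

set_option autoImplicit false

namespace Pool.Agent.NPC.Q328.EB

open Pool.Agent.NPC Pool.Agent.H820R2.SS Finset
open Pool.Agent.NPC.ANN (Lb rl pm us up ok3 ok3_iff rl_mem pm_mem up_lt upd_take upd_nil
  upd_take_update ok3_pred)

variable {M : ARM}

/-- register `j` is at place `y` -/
def lf (σ : ℕ → Bool) (j y : ℕ) : ℕ → ℕ := Function.update (cf σ) j y

theorem lf_self {σ : ℕ → Bool} {j y : ℕ} : lf σ j y j = y := by simp [lf]

theorem lf_ne {σ : ℕ → Bool} {i j y : ℕ} (h : i ≠ j) : lf σ j y i = cf σ i := by simp [lf, h]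

theorem lf_lt {σ : ℕ → Bool} {j y : ℕ} (hy : y < 4) (n : ℕ) : ∀ i < n, lf σ j y i < 4 :=
  upd_lt (cf_lt σ n) hy

theorem SR_lf {n j : ℕ} (hj : j < n) (σ : ℕ → Bool) (y : ℕ) :
    SR n (lf σ j y) = -n + (val y + 1) := by
  unfold lf
  rw [SR_update hj, SR_cf]
  have : val (cf σ j) = -1 := by rw [val, if_pos (cf_lt2 σ j)]
  rw [this]
  ring

theorem cf_update (σ : ℕ → Bool) (j : ℕ) (b : Bool) :
    cf (Function.update σ j b) = lf σ j b.toNat := by
  funext i
  simp only [lf, cf, Function.update_apply]
  split_ifs <;> rfl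

theorem SR_lf2 {n i j : ℕ} (hi : i < n) (hj : j < n) (hij : i ≠ j) (σ : ℕ → Bool) (y z : ℕ) :
    SR n (Function.update (lf σ j y) i z) = -n + (val y + 1) + (val z + 1) := by
  rw [SR_update hi, SR_lf hj, lf_ne hij]
  have : val (cf σ i) = -1 := by rw [val, if_pos (cf_lt2 σ i)]
  rw [this]
  ring

/-- a value can only be lifted -/
theorem yadj_cf {σ : ℕ → Bool} {i z : ℕ} (h : yadj false (cf σ i) z = true) : z = 2 := by
  have := cf_lt2 σ i
  simp [yadj] at h
  omega

theorem not_yadj_cf {σ : ℕ → Bool} {i z : ℕ} : yadj true (cf σ i) z = false := by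
  have := cf_lt2 σ i
  simp [yadj]
  omega

section act

variable {r i k : ℕ} {σ : ℕ → Bool}

theorem act1 (hM : ARMPr M) (hk : ok3 M r i k = true) (h0 : 0 < k)
    (h : LW M true ((10 + cf σ (up M r i k).1, r, i, k), M.1.length, lf σ (up M r i k).1 2)) :
    LW M false ((10 + cf σ (up M r i k).1, r, i, k), M.1.length, cf σ) := by
  have hj := up_lt hM hk h0
  have hb := cf_lt2 σ (up M r i k).1
  refine .all fun s' hs' => ?_
  cases hs' with
  | @ctl _ _ c' _ _ h1 h2 hf =>
    exact absurd (radj_V1 h2 hb h1) (hf _ hj)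
  | @rg _ _ _ _ i' z hi h1 hc =>
    have hz := yadj_cf h1
    subst hz
    by_cases hij : i' = (up M r i k).1
    · subst hij
      exact h
    · have h3 : Function.update (cf σ) i' 2 (up M r i k).1 = cf σ (up M r i k).1 :=
        Function.update_of_ne (Ne.symm hij) _ _
      refine entL (j := (up M r i k).1) (y := 2) hj (by norm_num) ?_ (by rw [h3]; omega)
        (upd_lt (cf_lt σ _) (by norm_num)) ?_
      · have h4 := cf_lt2 σ (up M r i k).1
        interval_cases cf σ (up M r i k).1 <;> simp [ladj]
      · rw [h3, show Function.update (cf σ) i' 2 = lf σ i' 2 from rfl, SR_lf hi]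
        simp only [pv, val]
        norm_num
        split_ifs <;> omega

theorem act2 (hM : ARMPr M) (hk : ok3 M r i k = true) (h0 : 0 < k)
    (h : LW M true ((14, r, i, k), M.1.length, lf σ (up M r i k).1 3)) :
    LW M false ((13, r, i, k), M.1.length, lf σ (up M r i k).1 3) := by
  have hj := up_lt hM hk h0
  refine .all fun s' hs' => ?_
  cases hs' with
  | @ctl _ _ c' _ _ h1 h2 hf =>
    rcases radj_V2 h2 h1 with rfl | h3
    · exact h
    · exact absurd h3 (by rw [← lf_self (σ := σ) (j := (up M r i k).1) (y := 3)]; exact hf _ hj)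
  | @rg _ _ _ _ i' z hi h1 hc =>
    by_cases hij : i' = (up M r i k).1
    · subst hij
      rw [lf_self] at h1
      have hz : z < 2 := by simp [yadj] at h1; omega
      have h3 : Function.update (lf σ (up M r i k).1 3) (up M r i k).1 z =
          lf σ (up M r i k).1 z := by
        unfold lf
        rw [Function.update_idem]
      rw [h3]
      refine entL (j := (up M r i k).1) (y := 2) hj (by norm_num) (by simp [ladj])
        (by rw [lf_self]; omega) (lf_lt (by omega) _) ?_
      rw [lf_self, SR_lf hj]
      simp only [pv, val]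
      norm_num
      split_ifs <;> omega
    · have hz := yadj_cf (σ := σ) (i := i') (z := z) (by rwa [lf_ne hij] at h1)
      subst hz
      have h3 : Function.update (lf σ (up M r i k).1 3) i' 2 (up M r i k).1 = 3 := by
        rw [Function.update_of_ne (Ne.symm hij), lf_self]
      refine entL (j := (up M r i k).1) (y := 2) hj (by norm_num) (by simp [ladj])
        (by rw [h3]; norm_num) (upd_lt (lf_lt (by norm_num) _) (by norm_num)) ?_
      rw [h3, SR_lf2 hi hj hij]
      simp only [pv, val]
      norm_num

theorem act3 (hM : ARMPr M) (hk : ok3 M r i k = true) (h0 : 0 < k)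
    (h : LW M true ((15, r, i, k), M.1.length,
      cf (Function.update σ (up M r i k).1 (up M r i k).2))) :
    LW M false ((15, r, i, k), M.1.length, lf σ (up M r i k).1 3) := by
  have hj := up_lt hM hk h0
  have hv : (up M r i k).2.toNat < 2 := by cases (up M r i k).2 <;> simp
  refine .all fun s' hs' => ?_
  cases hs' with
  | @ctl _ _ c' _ _ h1 h2 hf =>
    have h3 := radj_V3 h2 h1
    exact absurd h3 (by rw [← lf_self (σ := σ) (j := (up M r i k).1) (y := 3)]; exact hf _ hj)
  | @rg _ _ _ _ i' z hi h1 hc =>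
    by_cases hij : i' = (up M r i k).1
    · subst hij
      rw [lf_self] at h1
      have hz : z < 2 := by simp [yadj] at h1; omega
      have h3 : Function.update (lf σ (up M r i k).1 3) (up M r i k).1 z =
          lf σ (up M r i k).1 z := by
        unfold lf
        rw [Function.update_idem]
      rw [h3]
      by_cases hzv : z = (up M r i k).2.toNat
      · rw [cf_update] at h
        rw [hzv]
        exact h
      · refine entL (j := (up M r i k).1) (y := (up M r i k).2.toNat) hj (by omega)
          (by simp [ladj]) (by rw [lf_self]; exact hzv) (lf_lt (by omega) _) ?_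
        rw [lf_self, SR_lf hj]
        simp only [pv, val, if_pos hv, if_pos hz]
        norm_num
    · have hz := yadj_cf (σ := σ) (i := i') (z := z) (by rwa [lf_ne hij] at h1)
      subst hz
      have h3 : Function.update (lf σ (up M r i k).1 3) i' 2 (up M r i k).1 = 3 := by
        rw [Function.update_of_ne (Ne.symm hij), lf_self]
      refine entL (j := (up M r i k).1) (y := (up M r i k).2.toNat) hj (by omega) (by simp [ladj])
        (by rw [h3]; omega) (upd_lt (lf_lt (by norm_num) _) (by norm_num)) ?_
      rw [h3, SR_lf2 hi hj hij]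
      simp only [pv, val, if_pos hv]
      norm_num

theorem dev1 (hM : ARMPr M) (hk : ok3 M r i k = true) (h0 : 0 < k) {b : ℕ} (hb : b < 2) {s' : St}
    (h : Step M true ((10 + b, r, i, k), M.1.length, lf σ (up M r i k).1 2) s') :
    ¬ LW M false s' ∨ s' = ((12, r, i, k), M.1.length, lf σ (up M r i k).1 2) := by
  have hj := up_lt hM hk h0
  have hadj : radj M (10 + b, r, i, k) (reg (up M r i k).1 b) = true := by
    interval_cases b <;> simp [radj]
  generalize hN : M.1.length = N at h
  cases h with
  | @ctl _ _ c' _ _ h1 h2 hf =>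
    rcases ladj_V1 h2 hb h1 with rfl | rfl
    · exact Or.inr rfl
    · exact absurd (by rw [lf_self]) (hf _ hj)
  | @res _ n _ =>
    left
    refine entR hj (by omega) hadj (by rw [lf_self]; omega) (lf_lt (by norm_num) _) ?_
    rw [lf_self, SR_lf hj, hN]
    simp only [pv, val, if_pos hb]
    norm_num
  | @rg _ _ _ _ i' z hi h1 hc =>
    left
    have hij : i' = (up M r i k).1 := by
      by_contra hij
      rw [lf_ne hij, not_yadj_cf] at h1
      exact absurd h1 (by decide)
    subst hij
    rw [lf_self] at h1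
    have hz : z = 3 := by simpa [yadj] using h1
    subst hz
    have h3 : Function.update (lf σ (up M r i k).1 2) (up M r i k).1 3 =
        lf σ (up M r i k).1 3 := by
      unfold lf
      rw [Function.update_idem]
    rw [h3]
    refine entR hj (by omega) hadj (by rw [lf_self]; omega) (lf_lt (by norm_num) _) ?_
    rw [lf_self, SR_lf hj, hN]
    simp only [pv, val, if_pos hb]
    norm_num

theorem dev2 (hM : ARMPr M) (hk : ok3 M r i k = true) (h0 : 0 < k) {s' : St}
    (h : Step M true ((13, r, i, k), M.1.length, lf σ (up M r i k).1 2) s') :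
    ¬ LW M false s' ∨ s' = ((13, r, i, k), M.1.length, lf σ (up M r i k).1 3) := by
  have hj := up_lt hM hk h0
  have hadj : radj M (13, r, i, k) (reg (up M r i k).1 3) = true := by
    simp [radj]
  generalize hN : M.1.length = N at h
  cases h with
  | @ctl _ _ c' _ _ h1 h2 hf =>
    have h3 := ladj_V2 h2 h1
    subst h3
    exact absurd (by rw [lf_self]) (hf _ hj)
  | @res _ n _ =>
    left
    refine entR hj (by omega) hadj (by rw [lf_self]; omega) (lf_lt (by norm_num) _) ?_
    rw [lf_self, SR_lf hj, hN]
    simp only [pv, val]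
    norm_num
  | @rg _ _ _ _ i' z hi h1 hc =>
    right
    have hij : i' = (up M r i k).1 := by
      by_contra hij
      rw [lf_ne hij, not_yadj_cf] at h1
      exact absurd h1 (by decide)
    subst hij
    rw [lf_self] at h1
    have hz : z = 3 := by simpa [yadj] using h1
    subst hz
    unfold lf
    rw [Function.update_idem]

theorem dev3 (hM : ARMPr M) (hk : ok3 M r i k = true) (h0 : 0 < k)
    (hv : σ (up M r i k).1 = (up M r i k).2) {s' : St}
    (h : Step M true ((15, r, i, k), M.1.length, cf σ) s') :
    ¬ LW M false s' ∨ s' = ((16, r, i, k), M.1.length, cf σ) := by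
  have hj := up_lt hM hk h0
  have hadj : radj M (15, r, i, k) (reg (up M r i k).1 3) = true := by
    simp [radj]
  have hc2 := cf_lt2 σ (up M r i k).1
  generalize hN : M.1.length = N at h
  cases h with
  | @ctl _ _ c' _ _ h1 h2 hf =>
    rcases ladj_V3 h2 h1 with rfl | rfl
    · exact Or.inr rfl
    · exact absurd (by rw [cf, hv]) (hf _ hj)
  | @res _ n _ =>
    left
    refine entR hj (by omega) hadj (by omega) (cf_lt _ _) ?_
    rw [SR_cf, hN]
    simp only [pv, val, if_pos hc2]
    norm_num
  | @rg _ _ _ _ i' z hi h1 hc =>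
    rw [not_yadj_cf] at h1
    exact absurd h1 (by decide)

theorem ok_K {x : ℕ} (hk : ok3 M r i k = true) (h0 : 0 < k) (h1 : 6 ≤ x) (h2 : x ≤ 16) :
    ok M (x, r, i, k) = true := by
  simp [ok, hk, h0, h1, h2]

theorem ok_C (hk : ok3 M r i k = true) : ok M (5, r, i, k) = true := by
  simp [ok, hk]

/-- control vertices are not in the regions -/
theorem ne_reg {z : Lb} (h : z.1 ≠ 17) (f : ℕ → ℕ) {n : ℕ} : ∀ j < n, z ≠ reg j (f j) := by
  rintro j - rfl
  exact h rfl

theorem chain1 (hM : ARMPr M) (hk : ok3 M r i (k + 1) = true)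
    (h : LW M true ((5, r, i, k), M.1.length,
      cf (Function.update σ (up M r i (k + 1)).1 (up M r i (k + 1)).2))) :
    LW M true ((5, r, i, k + 1), M.1.length, cf σ) := by
  have h0 : 0 < k + 1 := Nat.succ_pos k
  have hj := up_lt hM hk h0
  have hb := cf_lt2 σ (up M r i (k + 1)).1
  -- vertex 16
  have s16 : LW M false ((16, r, i, k + 1), M.1.length,
      cf (Function.update σ (up M r i (k + 1)).1 (up M r i (k + 1)).2)) := by
    refine .all fun s' hs' => ?_
    rcases ordR (by simp [ladj]) (cf_lt _ _) hs' with h1 | ⟨c', h1, h2, h3, rfl⟩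
    · exact h1
    · obtain ⟨k', h4, rfl⟩ := radj_O3 h1
      have h5 : k' = k := by omega
      subst h5
      exact h
  have s15 : LW M true ((15, r, i, k + 1), M.1.length,
      cf (Function.update σ (up M r i (k + 1)).1 (up M r i (k + 1)).2)) :=
    .win (.ctl (c' := (16, r, i, k + 1)) (by simp [adj, ladj]) (ok_K hk h0 (by norm_num) (by norm_num))
      (ne_reg (by norm_num) _)) s16
  have s15' := act3 hM hk h0 s15
  have s14 : LW M true ((14, r, i, k + 1), M.1.length, lf σ (up M r i (k + 1)).1 3) :=
    .win (.ctl (c' := (15, r, i, k + 1)) (by simp [adj, ladj]) (ok_K hk h0 (by norm_num) (by norm_num))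
      (ne_reg (by norm_num) _)) s15'
  have s13' := act2 hM hk h0 s14
  have s13 : LW M true ((13, r, i, k + 1), M.1.length, lf σ (up M r i (k + 1)).1 2) := by
    refine .win (s' := ((13, r, i, k + 1), M.1.length, lf σ (up M r i (k + 1)).1 3)) ?_ s13'
    have h3 : lf σ (up M r i (k + 1)).1 3 =
        Function.update (lf σ (up M r i (k + 1)).1 2) (up M r i (k + 1)).1 3 := by
      unfold lf
      rw [Function.update_idem]
    rw [h3]
    exact .rg hj (by rw [lf_self]; rfl) (by simp)
  have s12 : LW M false ((12, r, i, k + 1), M.1.length, lf σ (up M r i (k + 1)).1 2) := by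
    refine .all fun s' hs' => ?_
    rcases ordR (by simp [ladj]) (lf_lt (by norm_num) _) hs' with h1 | ⟨c', h1, h2, h3, rfl⟩
    · exact h1
    · rw [radj_O1 h1]
      exact s13
  have s10 : LW M true ((10 + cf σ (up M r i (k + 1)).1, r, i, k + 1), M.1.length,
      lf σ (up M r i (k + 1)).1 2) := by
    refine .win (.ctl (c' := (12, r, i, k + 1)) ?_ (ok_K hk h0 (by norm_num) (by norm_num))
      (ne_reg (by norm_num) _)) s12
    interval_cases cf σ (up M r i (k + 1)).1 <;> simp [adj, ladj]
  have s10' := act1 hM hk h0 s10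
  have s8 : LW M true ((8 + cf σ (up M r i (k + 1)).1, r, i, k + 1), M.1.length, cf σ) := by
    refine .win (.ctl (c' := (10 + cf σ (up M r i (k + 1)).1, r, i, k + 1)) ?_
      (ok_K hk h0 (by omega) (by omega)) (ne_reg (by simp only; omega) _)) s10'
    interval_cases cf σ (up M r i (k + 1)).1 <;> simp [adj, ladj]
  have s6 : LW M false ((6 + cf σ (up M r i (k + 1)).1, r, i, k + 1), M.1.length, cf σ) := by
    refine .all fun s' hs' => ?_
    rcases ordR (by interval_cases cf σ (up M r i (k + 1)).1 <;> simp [ladj]) (cf_lt _ _) hs' with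
      h1 | ⟨c', h1, h2, h3, rfl⟩
    · exact h1
    · rcases radj_Q h2 hb h1 with rfl | rfl
      · exact s8
      · exact absurd rfl (h3 _ hj)
  refine .win (.ctl (c' := (6 + cf σ (up M r i (k + 1)).1, r, i, k + 1)) ?_
      (ok_K hk h0 (by omega) (by omega)) (ne_reg (by simp only; omega) _)) s6
  interval_cases cf σ (up M r i (k + 1)).1 <;> simp [adj, ladj]

theorem chain (hM : ARMPr M) (hk : ok3 M r i k = true)
    (h : LW M true ((5, r, i, 0), M.1.length, cf (upd σ ((us M r i).take k)))) :
    LW M true ((5, r, i, k), M.1.length, cf σ) := by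
  induction k generalizing σ with
  | zero =>
    rw [List.take_zero, upd_nil] at h
    exact h
  | succ k ih =>
    rw [upd_take hk (Nat.succ_pos k), Nat.add_sub_cancel] at h
    exact chain1 hM hk (ih (ok3_pred hk) h)

end act

theorem ok_R {r : ℕ} (h : r < M.2.2.length) : ok M (4, r, 0, 0) = true := by simp [ok, h]

theorem acc (hM : ARMPr M) {c : ℕ} {ρ : ℕ → Bool} (h : Der M.2.2 c ρ) : ∀ v : Lb,
    (v = (0, 0, 0, 0) ∧ c = M.2.1) ∨
      (∃ r i, v = (5, r, i, 0) ∧ ok3 M r i 0 = true ∧ c = (pm M r i).1) →
    LW M true (v, M.1.length, cf ρ) := by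
  induction h with
  | mk rule ρ hr hg hp ih =>
    intro v hv
    obtain ⟨r, hr1, hr2⟩ := List.getElem_of_mem hr
    have hrl : rl M r = rule := by
      unfold rl
      rw [List.getD_eq_getElem _ _ hr1, hr2]
    have hlose : LW M false ((4, r, 0, 0), M.1.length, cf ρ) := by
      refine .all fun s' hs' => ?_
      rcases ordR (by simp [ladj]) (cf_lt _ _) hs' with h3 | ⟨v', h3, h4, h5, rfl⟩
      · exact h3
      · rcases radj_R h4 h3 with ⟨i, rfl⟩ | ⟨j, b, rfl, h6⟩
        · have h6 : ok3 M r i (us M r i).length = true := by simpa [ok] using h4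
          have h6' := ok3_iff.1 h6
          have h7 : pm M r i ∈ rule.2.2 := by
            rw [← hrl]
            exact pm_mem h6'.2.1
          refine chain hM h6 ?_
          rw [List.take_length]
          exact ih _ h7 _ (Or.inr ⟨r, i, rfl, by rw [ok3_iff]; omega, rfl⟩)
        · exfalso
          have hj : j < M.1.length := (hM _ (rl_mem hr1)).1 _ h6
          refine h5 j hj ?_
          have h7 := hg _ (by rw [← hrl]; exact h6)
          simp only at h7
          rw [cf, h7]
    rcases hv with ⟨rfl, hc⟩ | ⟨r', i', rfl, hk, hc⟩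
    · exact .win (.ctl (c' := (4, r, 0, 0)) (by simp [adj, ladj, hrl, hc]) (ok_R hr1)
        (ne_reg (by norm_num) _)) hlose
    · exact .win (.ctl (c' := (4, r, 0, 0)) (by simp [adj, ladj, hrl, hc]) (ok_R hr1)
        (ne_reg (by norm_num) _)) hlose

end Pool.Agent.NPC.Q328.EB
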